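import Mathlib
import Pool.Agent.Lib.MP_5f1228_co.Defs
import Pool.Agent.Lib.MP_5f1228_co.DefsB

/-!
# MP_5f1228_co: definitions for the asymptotically exact threshold `1 - 2^(-r)` (all `r`)

Abstract part: systems of universal (fat) points `X` and thin points `Z`.
Concrete part: link graphs, classes, the system of a coloured graph.
-/

set_option autoImplicit false

open scoped Classical
open Finset

namespace Pool.Agent.MP5f1228.Asy

open Pool.Agent.MP5f1228B (Con)

/-- A system: fat points `X`, thin points `Z`. In colour `i` the fat point `x` has the label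
`κ i x`. If `act i x` the label is a (robust) class, otherwise it belongs to `x` only and the thin
points joined to `x` in colour `i` form a clique. `A i x z`: `z` is joined to the label of `x`. -/
structure Sys (r : ℕ) (X Z L : Type) where
  κ : Fin r → X → L
  act : Fin r → X → Prop
  A : Fin r → X → Z → Prop
  Γ : Fin r → Z → Z → Prop
  Γ_symm : ∀ i z z', Γ i z z' → Γ i z' z
  act_congr : ∀ i x x', act i x → κ i x = κ i x' → act i x'
  A_congr : ∀ i x x' z, act i x → κ i x = κ i x' → A i x z → A i x' z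
  own : ∀ i x x', ¬ act i x → κ i x = κ i x' → x = x'
  clique : ∀ i x z z', ¬ act i x → A i x z → A i x z' → z = z' ∨ Γ i z z'

namespace Sys

variable {r : ℕ} {X Z L : Type}

/-- edges of colour `i` between points -/
def Edge (S : Sys r X Z L) (i : Fin r) : X ⊕ Z → X ⊕ Z → Prop
  | .inl x, .inl x' => S.κ i x = S.κ i x'
  | .inl x, .inr z => S.A i x z
  | .inr z, .inl x => S.A i x z
  | .inr z, .inr z' => S.Γ i z z'

/-- the admissible intermediate points of chains in colour `i`: active fat points and the points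
of `W` -/
def Ok (S : Sys r X Z L) (i : Fin r) (W : Finset Z) : X ⊕ Z → Prop
  | .inl x => S.act i x
  | .inr z => z ∈ W

/-- `p` is reached from the fat point `y` in colour `i` inside `W` (and the active fat points) -/
def Rch (S : Sys r X Z L) (i : Fin r) (y : X) (W : Finset Z) (p : X ⊕ Z) : Prop :=
  Con (S.Edge i) (S.Ok i W) (Sum.inl y) p

/-- `Y` is good for `y`: it is the disjoint union of sets `W i` such that every point of `W i` is
reached from `y` in colour `i` inside `W i`. -/
def Good (S : Sys r X Z L) (y : X) (Y : Finset Z) : Prop :=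
  ∃ W : Fin r → Finset Z, (∀ i, ∀ z ∈ W i, S.Rch i y (W i) (Sum.inr z)) ∧
    (∀ i j, i ≠ j → Disjoint (W i) (W j)) ∧ univ.biUnion W = Y

/-- the thin points covered by `y` -/
def Cov (S : Sys r X Z L) (y : X) (z : Z) : Prop := ∃ i, S.A i y z

/-- `y` meets every fat point -/
def Univ (S : Sys r X Z L) (y : X) : Prop := ∀ x, ∃ i, S.κ i x = S.κ i y

end Sys

/-! ### graphs -/

section Graph

variable {V : Type} [Fintype V] [DecidableEq V] {r : ℕ} (G : SimpleGraph V)
  (c : Sym2 V → Fin r) (b t : ℕ)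

/-- strong adjacency or adjacency in colour `i` -/
def Sm (i : Fin r) : SimpleGraph V := Str G c b t i ⊔ mono G c i

/-- link graph: strong adjacency or adjacency in colour `i`, between active vertices -/
def Lk (i : Fin r) : SimpleGraph V where
  Adj v w := v ≠ w ∧ v ∈ ActG G c b i ∧ w ∈ ActG G c b i ∧
    (t ≤ (Nb G c i v ∩ Nb G c i w).card ∨ w ∈ Nb G c i v)
  symm := ⟨fun v w h => ⟨h.1.symm, h.2.2.1, h.2.1, by
    rw [inter_comm]
    refine h.2.2.2.imp id fun h' => ?_
    unfold Nb at h' ⊢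
    rw [mem_filter] at h' ⊢
    exact ⟨mem_univ _, h'.2.symm⟩⟩⟩
  loopless := ⟨fun v h => h.1 rfl⟩

/-- active vertices outside `D0` -/
def Zc (D0 : Finset V) (i : Fin r) (v : V) : Prop := v ∈ ActG G c b i ∧ v ∉ D0

/-- the class relation of colour `i` -/
def Cl (D0 : Finset V) (i : Fin r) (u v : V) : Prop :=
  u = v ∨ (Zc G c b D0 i u ∧ Zc G c b D0 i v ∧
    Con (Lk G c b t i).Adj (Zc G c b D0 i) u v)

/-- `D0` has been removed and the classes are robust -/
def Rob (D0 : Finset V) (lam : ℕ) : Prop :=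
  ∀ i, ∀ F : Finset V, F.card < lam → ∀ u v, Zc G c b D0 i u → u ∉ F → Zc G c b D0 i v → v ∉ F →
    Con (Lk G c b t i).Adj (Zc G c b D0 i) u v →
    Con (Lk G c b t i).Adj (fun w => Zc G c b D0 i w ∧ w ∉ F) u v

/-- independent sets of active vertices in the link graph have at most `M` elements -/
def IndB (M : ℕ) : Prop :=
  ∀ i, ∀ S : Finset V, S ⊆ ActG G c b i → (∀ v ∈ S, ∀ w ∈ S, ¬ (Lk G c b t i).Adj v w) →
    S.card ≤ M

/-- `u` and `v` have the same word -/
def We (D0 : Finset V) (u v : V) : Prop :=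
  ∀ i, (u ∈ ActG G c b i ↔ v ∈ ActG G c b i) ∧ (u ∈ ActG G c b i → Cl G c b t D0 i u v)

/-- typical vertices; `R` is the set of representatives of the words, `a` bounds the number of
neighbours `y` of `v` in colours in which `v` is active and `y` is not, `K` is a large constant. -/
structure Typ (D0 R : Finset V) (a K : ℕ) (v : V) : Prop where
  notD : v ∉ D0
  few : (univ.filter (fun y => ∃ i, v ∈ ActG G c b i ∧ y ∈ Nb G c i v ∧
    y ∉ ActG G c b i)).card ≤ a
  clq : ∀ i, ∀ z ∈ D0 ∪ R, ∀ z' ∈ D0 ∪ R, z ≠ z' → v ∈ Nb G c i z → v ∈ Nb G c i z' →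
    t ≤ (Nb G c i z ∩ Nb G c i z').card
  many : ∀ i, ∀ z ∈ D0, v ∈ ActG G c b i → v ∈ Nb G c i z →
    K ≤ (univ.filter (fun u => u ∈ Nb G c i z ∧ Cl G c b t D0 i v u)).card

/-- `z` is joined to the label of `x` in colour `i` -/
def AG (D0 : Finset V) (K : ℕ) (i : Fin r) (x z : V) : Prop :=
  (x ∈ ActG G c b i ∧ ((z ∉ D0 ∧ Cl G c b t D0 i x z) ∨
    (z ∈ D0 ∧ K ≤ (univ.filter (fun u => u ∈ Nb G c i z ∧ Cl G c b t D0 i x u)).card))) ∨
  (x ∉ ActG G c b i ∧ z ∈ ActG G c b i ∧ x ∈ Nb G c i z)

/-- adjacency of thin points in colour `i` -/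
def GG (D0 : Finset V) (i : Fin r) (z z' : V) : Prop :=
  (Lk G c b t i).Adj z z' ∨ (z ∉ D0 ∧ z' ∉ D0 ∧ z ≠ z' ∧ Cl G c b t D0 i z z')

end Graph

end Pool.Agent.MP5f1228.Asy
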