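import Mathlib
import Pool.Agent.Lib.MP_5f1228_co.Asy.Defs
import Pool.Agent.Lib.MP_5f1228_co.RO

set_option autoImplicit false

open scoped Classical
open Finset

namespace Pool.Agent.MP5f1228.Asy

open Pool.Agent.MP5f1228B (Con)

theorem Att_ok_mono {r : ℕ} {X Z L : Type} (S : Sys r X Z L) (i : Fin r) {W W' : Finset Z}
    (h : W ⊆ W') (p : X ⊕ Z) (hp : S.Ok i W p) : S.Ok i W' p := by
  rcases p with x | z
  · exact hp
  · exact h hp

theorem Att_rch_mono {r : ℕ} {X Z L : Type} (S : Sys r X Z L) (i : Fin r) (y : X)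
    {W W' : Finset Z} (h : W ⊆ W') (p : X ⊕ Z) (hp : S.Rch i y W p) : S.Rch i y W' p :=
  Con.monoP (Att_ok_mono S i h) hp

/-- one class of points gives a good set -/
theorem Att_good_one {r : ℕ} {X Z L : Type} (S : Sys r X Z L) (i : Fin r) (y : X)
    (P : Finset Z) (h : ∀ z ∈ P, S.Rch i y P (Sum.inr z)) : S.Good y P := by
  refine ⟨fun j => if j = i then P else ∅, ?_, ?_, ?_⟩
  · intro j z hz
    by_cases hj : j = i
    · subst hj
      simp only [if_true] at hz ⊢
      exact h z hz
    · simp only [if_neg hj] at hz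
      exact absurd hz (notMem_empty z)
  · intro j k hjk
    by_cases hj : j = i
    · have hk : ¬ k = i := fun e => hjk (hj.trans e.symm)
      simp only [if_neg hk]
      exact disjoint_empty_right _
    · simp only [if_neg hj]
      exact disjoint_empty_left _
  · ext z
    simp only [mem_biUnion, mem_univ, true_and]
    constructor
    · rintro ⟨j, hj⟩
      by_cases hji : j = i
      · rwa [if_pos hji] at hj
      · rw [if_neg hji] at hj
        exact absurd hj (notMem_empty z)
    · intro hz
      exact ⟨i, by rwa [if_pos rfl]⟩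

/-- module ATT (file Asy/Att.lean) -/
theorem Sys.good_empty {r : ℕ} {X Z L : Type} (S : Sys r X Z L) (y : X) : S.Good y ∅ := by
  refine ⟨fun _ => ∅, ?_, ?_, ?_⟩
  · intro i z hz
    exact absurd hz (notMem_empty z)
  · intro i j _
    exact disjoint_empty_right _
  · ext z
    simp

theorem Sys.good_union {r : ℕ} {X Z L : Type} (S : Sys r X Z L) (y : X) (Y Y' : Finset Z)
    (h : S.Good y Y) (h' : S.Good y Y') (hd : Disjoint Y Y') : S.Good y (Y ∪ Y') := by
  obtain ⟨W, h1, h2, h3⟩ := h
  obtain ⟨W', h1', h2', h3'⟩ := h'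
  have hs : ∀ i, W i ⊆ Y := by
    intro i z hz
    rw [← h3, mem_biUnion]
    exact ⟨i, mem_univ i, hz⟩
  have hs' : ∀ i, W' i ⊆ Y' := by
    intro i z hz
    rw [← h3', mem_biUnion]
    exact ⟨i, mem_univ i, hz⟩
  refine ⟨fun i => W i ∪ W' i, ?_, ?_, ?_⟩
  · intro i z hz
    rw [mem_union] at hz
    rcases hz with hz | hz
    · exact Att_rch_mono S i y subset_union_left _ (h1 i z hz)
    · exact Att_rch_mono S i y subset_union_right _ (h1' i z hz)
  · intro i j hij
    rw [disjoint_union_left, disjoint_union_right, disjoint_union_right]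
    exact ⟨⟨h2 i j hij, (hd.mono_left (hs i)).mono_right (hs' j)⟩,
      ⟨(hd.symm.mono_left (hs' i)).mono_right (hs j), h2' i j hij⟩⟩
  · ext z
    rw [← h3, ← h3']
    simp only [mem_biUnion, mem_union, mem_univ, true_and]
    constructor
    · rintro ⟨i, hi | hi⟩
      · exact Or.inl ⟨i, hi⟩
      · exact Or.inr ⟨i, hi⟩
    · rintro (⟨i, hi⟩ | ⟨i, hi⟩)
      · exact ⟨i, Or.inl hi⟩
      · exact ⟨i, Or.inr hi⟩

/-- the points of a chain in `W` are reached inside the set of reached points of `W` -/
theorem Att_inside {r : ℕ} {X Z L : Type} (S : Sys r X Z L) (y : X) (i : Fin r)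
    (W : Finset Z) (p : X ⊕ Z) (h : S.Rch i y W p) :
    S.Rch i y (W.filter (fun z' => S.Rch i y W (Sum.inr z'))) p := by
  have h1 : Con (S.Edge i) (fun w => S.Ok i W w ∧ Con (S.Edge i) (S.Ok i W) (Sum.inl y) w)
      (Sum.inl y) p := Con.comp h
  refine Con.monoP ?_ h1
  rintro (x | z') ⟨h2, h3⟩
  · exact h2
  · exact mem_filter.mpr ⟨h2, h3⟩

theorem Sys.att_of_rch {r : ℕ} {X Z L : Type} (S : Sys r X Z L) (y : X) (i : Fin r) (z : Z)
    (W : Finset Z) (h : S.Rch i y (insert z W) (Sum.inr z)) : RO.Att (S.Good y) z W := by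
  set P : Finset Z := (W.erase z).filter (fun z' => S.Rch i y (W.erase z) (Sum.inr z')) with hP
  have hP1 : ∀ z' ∈ P, S.Rch i y P (Sum.inr z') := fun z' hz' =>
    Att_inside S y i (W.erase z) (Sum.inr z') (mem_filter.mp hz').2
  have key : ∀ p, S.Rch i y (insert z W) p →
      S.Rch i y (insert z P) (Sum.inr z) ∨ S.Rch i y (W.erase z) p := by
    intro p hp
    unfold Sys.Rch Pool.Agent.MP5f1228B.Con at hp
    induction hp with
    | refl => exact Or.inr Relation.ReflTransGen.refl
    | @tail p p' hpp hpp' ih =>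
      rcases ih with ih | ih
      · exact Or.inl ih
      · by_cases hz : p' = Sum.inr z
        · left
          subst hz
          have h1 : S.Rch i y (insert z P) p :=
            Att_rch_mono S i y (subset_insert z P) _ (Att_inside S y i (W.erase z) p ih)
          exact Con.tail h1 hpp'.1 (mem_insert_self z P)
        · right
          refine Con.tail ih hpp'.1 ?_
          rcases p' with x | z'
          · exact hpp'.2
          · have h2 : z' ∈ insert z W := hpp'.2
            have h3 : z' ≠ z := fun e => hz (by rw [e])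
            exact mem_erase.mpr ⟨h3, (mem_insert.mp h2).resolve_left h3⟩
  have hz : S.Rch i y (insert z P) (Sum.inr z) := by
    rcases key _ h with h1 | h1
    · exact h1
    · exfalso
      rcases Con.end_mem h1 with h2 | h2
      · exact Sum.inr_ne_inl h2
      · exact notMem_erase z W h2
  refine ⟨P, filter_subset _ _, Att_good_one S i y P hP1, Att_good_one S i y (insert z P) ?_⟩
  intro z' hz'
  rcases mem_insert.mp hz' with h1 | h1
  · rw [h1]
    exact hz
  · exact Att_rch_mono S i y (subset_insert z P) _ (hP1 z' h1)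

theorem Sys.att_of_cov {r : ℕ} {X Z L : Type} (S : Sys r X Z L) (y : X) (z : Z)
    (W : Finset Z) (h : S.Cov y z) : RO.Att (S.Good y) z W := by
  obtain ⟨i, hi⟩ := h
  refine ⟨∅, empty_subset _, S.good_empty y, Att_good_one S i y _ ?_⟩
  intro z' hz'
  have h1 : z' = z := by
    rcases mem_insert.mp hz' with h1 | h1
    · exact h1
    · exact absurd h1 (notMem_empty z')
  subst h1
  exact Con.single (A := S.Edge i) hi hz'

end Pool.Agent.MP5f1228.Asy
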