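import Mathlib
import Pool.Agent.Lib.MP_5f1228_co.RO

set_option autoImplicit false

open scoped Classical
open Finset

namespace Pool.Agent.MP5f1228.Asy

section CertRO

variable {C Z : Type} [Fintype Z] (cov : C → Z → Prop) (att : C → Z → Finset Z → Prop)

/-- the point `y` is selected -/
def CertRO_cond (S T : Finset Z) (y : Z) : Prop := ∃ q : C, (∀ t ∈ T, cov q t) ∧ ¬ att q y S

/-- the new set of selected points -/
noncomputable def CertRO_next (S T : Finset Z) (y : Z) : Finset Z :=
  if CertRO_cond cov att S T y then insert y T else T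

/-- the probability that `z` is selected at the end -/
noncomputable def CertRO_W (R S T : Finset Z) (z : Z) : ℝ :=
  if R = ∅ then (if z ∈ T then 1 else 0) else
    (∑ y ∈ R.attach, CertRO_W (R.erase y.1) (insert y.1 S) (CertRO_next cov att S T y.1) z)
      / R.card
termination_by R.card
decreasing_by exact Finset.card_erase_lt_of_mem y.2

theorem CertRO_W_empty (S T : Finset Z) (z : Z) :
    CertRO_W cov att ∅ S T z = if z ∈ T then 1 else 0 := by
  rw [CertRO_W, if_pos rfl]

theorem CertRO_W_eq {R : Finset Z} (S T : Finset Z) (z : Z) (h : R.Nonempty) :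
    (R.card : ℝ) * CertRO_W cov att R S T z =
      ∑ y ∈ R, CertRO_W cov att (R.erase y) (insert y S) (CertRO_next cov att S T y) z := by
  rw [CertRO_W, if_neg h.ne_empty, sum_attach R (fun y =>
    CertRO_W cov att (R.erase y) (insert y S) (CertRO_next cov att S T y) z)]
  have : (0 : ℝ) < R.card := by exact_mod_cast h.card_pos
  field_simp

theorem CertRO_W_nonneg (R S T : Finset Z) (z : Z) : 0 ≤ CertRO_W cov att R S T z := by
  induction hn : R.card using Nat.strong_induction_on generalizing R S T with
  | _ n ih =>
    rcases R.eq_empty_or_nonempty with rfl | hne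
    · rw [CertRO_W_empty]
      split_ifs
      · exact zero_le_one
      · exact le_rfl
    · have h1 := CertRO_W_eq cov att S T z hne
      have h2 : (0 : ℝ) < R.card := by exact_mod_cast hne.card_pos
      have h3 : 0 ≤ (R.card : ℝ) * CertRO_W cov att R S T z := by
        rw [h1]
        refine sum_nonneg fun y hy => ?_
        exact ih _ (by rw [← hn]; exact card_erase_lt_of_mem hy) _ _ _ rfl
      exact nonneg_of_mul_nonneg_right h3 h2

/-- the scanned and the selected points come from a separating sequence -/
def CertRO_Inv (S T : Finset Z) (k : ℕ) : Prop :=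
  T.card ≤ k ∧ ∃ (y : Fin k → C) (z : Fin k → Z) (P : Fin k → Finset Z),
    (∀ j l, j < l → cov (y l) (z j)) ∧ (∀ j l, j < l → insert (z j) (P j) ⊆ P l) ∧
      (∀ l, ¬ att (y l) (z l) (P l)) ∧ (∀ l, insert (z l) (P l) ⊆ S) ∧ ∀ l, z l ∈ T

theorem CertRO_inv_next {S T : Finset Z} {k : ℕ} (h : CertRO_Inv cov att S T k) (y : Z) :
    ∃ k', CertRO_Inv cov att (insert y S) (CertRO_next cov att S T y) k' := by
  obtain ⟨h0, ys, z, P, h1, h2, h3, h4, h5⟩ := h
  unfold CertRO_next
  split_ifs with hc
  · obtain ⟨q, hq1, hq2⟩ := hc
    refine ⟨k + 1, (card_insert_le y T).trans (by omega), Fin.snoc (α := fun _ => C) ys q,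
      Fin.snoc (α := fun _ => Z) z y, Fin.snoc (α := fun _ => Finset Z) P S, ?_, ?_, ?_, ?_, ?_⟩
    · intro j l hjl
      induction l using Fin.lastCases with
      | last =>
        induction j using Fin.lastCases with
        | last => exact absurd hjl (lt_irrefl _)
        | cast j =>
          simp only [Fin.snoc_last, Fin.snoc_castSucc]
          exact hq1 _ (h5 j)
      | cast l =>
        induction j using Fin.lastCases with
        | last => exact absurd hjl (not_lt.mpr (Fin.le_last _))
        | cast j =>
          simp only [Fin.snoc_castSucc]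
          exact h1 j l (by simpa using hjl)
    · intro j l hjl
      induction l using Fin.lastCases with
      | last =>
        induction j using Fin.lastCases with
        | last => exact absurd hjl (lt_irrefl _)
        | cast j =>
          simp only [Fin.snoc_last, Fin.snoc_castSucc]
          exact h4 j
      | cast l =>
        induction j using Fin.lastCases with
        | last => exact absurd hjl (not_lt.mpr (Fin.le_last _))
        | cast j =>
          simp only [Fin.snoc_castSucc]
          exact h2 j l (by simpa using hjl)
    · intro l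
      induction l using Fin.lastCases with
      | last =>
        simp only [Fin.snoc_last]
        exact hq2
      | cast l =>
        simp only [Fin.snoc_castSucc]
        exact h3 l
    · intro l
      induction l using Fin.lastCases with
      | last =>
        simp only [Fin.snoc_last]
        exact Subset.rfl
      | cast l =>
        simp only [Fin.snoc_castSucc]
        exact (h4 l).trans (subset_insert y S)
    · intro l
      induction l using Fin.lastCases with
      | last =>
        simp only [Fin.snoc_last]
        exact mem_insert_self y T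
      | cast l =>
        simp only [Fin.snoc_castSucc]
        exact mem_insert_of_mem (h5 l)
  · exact ⟨k, h0, ys, z, P, h1, h2, h3, fun l => (h4 l).trans (subset_insert y S), h5⟩

/-- the total mass is at most `m` -/
theorem CertRO_mass (m : ℕ)
    (hm : ∀ (k : ℕ) (y : Fin k → C) (z : Fin k → Z) (P : Fin k → Finset Z),
      (∀ j l, j < l → cov (y l) (z j)) → (∀ j l, j < l → insert (z j) (P j) ⊆ P l) →
      (∀ l, ¬ att (y l) (z l) (P l)) → k ≤ m) (R S T : Finset Z)
    (hI : ∃ k, CertRO_Inv cov att S T k) : ∑ z, CertRO_W cov att R S T z ≤ m := by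
  induction hn : R.card using Nat.strong_induction_on generalizing R S T with
  | _ n ih =>
    rcases R.eq_empty_or_nonempty with rfl | hne
    · obtain ⟨k, h0, ys, z, P, h1, h2, h3, -, -⟩ := hI
      have h4 := hm k ys z P h1 h2 h3
      simp only [CertRO_W_empty]
      rw [sum_ite_mem, univ_inter, sum_const, nsmul_eq_mul, mul_one]
      exact_mod_cast h0.trans h4
    · have h2 : (0 : ℝ) < R.card := by exact_mod_cast hne.card_pos
      refine le_of_mul_le_mul_left ?_ h2
      rw [mul_sum]
      simp only [CertRO_W_eq cov att S T _ hne]
      rw [sum_comm, ← nsmul_eq_mul, ← sum_const]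
      refine sum_le_sum fun y hy => ?_
      obtain ⟨k, hk⟩ := hI
      exact ih _ (by rw [← hn]; exact card_erase_lt_of_mem hy) _ _ _
        (CertRO_inv_next cov att hk y) rfl

/-- the selected points not covered by a test -/
theorem CertRO_low (hca : ∀ y z S, cov y z → att y z S) (q : C) (R S T : Finset Z) :
    ((∀ t ∈ T, cov q t) → 1 - RO.ee (att q) R S ≤
      ∑ z ∈ univ.filter (fun z => ¬ cov q z), CertRO_W cov att R S T z) ∧
    (¬ (∀ t ∈ T, cov q t) → 1 ≤
      ∑ z ∈ univ.filter (fun z => ¬ cov q z), CertRO_W cov att R S T z) := by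
  induction hn : R.card using Nat.strong_induction_on generalizing R S T with
  | _ n ih =>
    rcases R.eq_empty_or_nonempty with rfl | hne
    · constructor
      · intro _
        rw [RO.ee_empty, sub_self]
        exact sum_nonneg fun z _ => CertRO_W_nonneg _ _ _ _ _ _
      · intro h
        push Not at h
        obtain ⟨t, ht, hc⟩ := h
        have h1 : CertRO_W cov att ∅ S T t = 1 := by rw [CertRO_W_empty, if_pos ht]
        rw [← h1]
        exact single_le_sum (f := fun z => CertRO_W cov att ∅ S T z)
          (fun z _ => CertRO_W_nonneg _ _ _ _ _ _) (mem_filter.mpr ⟨mem_univ _, hc⟩)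
    · have h2 : (0 : ℝ) < R.card := by exact_mod_cast hne.card_pos
      have h3 : (R.card : ℝ) *
          ∑ z ∈ univ.filter (fun z => ¬ cov q z), CertRO_W cov att R S T z =
          ∑ y ∈ R, ∑ z ∈ univ.filter (fun z => ¬ cov q z),
            CertRO_W cov att (R.erase y) (insert y S) (CertRO_next cov att S T y) z := by
        rw [mul_sum]
        simp only [CertRO_W_eq cov att S T _ hne]
        rw [sum_comm]
      constructor
      · intro hT
        refine le_of_mul_le_mul_left ?_ h2
        rw [h3, mul_sub, mul_one, RO.ee_eq (att q) S hne]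
        have h4 : (R.card : ℝ) = ∑ y ∈ R, (1 : ℝ) := by simp
        rw [h4, ← sum_sub_distrib]
        refine sum_le_sum fun y hy => ?_
        have h5 := ih _ (by rw [← hn]; exact card_erase_lt_of_mem hy) (R.erase y) (insert y S)
          (CertRO_next cov att S T y) rfl
        by_cases ha : att q y S
        · rw [if_pos ha]
          by_cases hc : ∀ t ∈ CertRO_next cov att S T y, cov q t
          · exact h5.1 hc
          · have h6 := h5.2 hc
            have h7 := RO.ee_nonneg (att q) (R.erase y) (insert y S)
            linarith
        · rw [if_neg ha, sub_zero]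
          refine h5.2 fun hc => ha (hca q y S (hc y ?_))
          unfold CertRO_next
          rw [if_pos ⟨q, hT, ha⟩]
          exact mem_insert_self y T
      · intro hT
        refine le_of_mul_le_mul_left ?_ h2
        rw [h3, ← nsmul_eq_mul, ← sum_const]
        refine sum_le_sum fun y hy => ?_
        refine (ih _ (by rw [← hn]; exact card_erase_lt_of_mem hy) (R.erase y) (insert y S)
          (CertRO_next cov att S T y) rfl).2 fun hc => hT fun t ht => hc t ?_
        unfold CertRO_next
        split_ifs
        · exact mem_insert_of_mem ht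
        · exact ht

end CertRO

/-- module CERTRO (file Asy/CertRO.lean) -/
theorem cert_ro {C Z : Type} [Fintype Z] (cov : C → Z → Prop)
    (att : C → Z → Finset Z → Prop) (hca : ∀ y z S, cov y z → att y z S) (m : ℕ)
    (hm : ∀ (k : ℕ) (y : Fin k → C) (z : Fin k → Z) (P : Fin k → Finset Z),
      (∀ j l, j < l → cov (y l) (z j)) → (∀ j l, j < l → insert (z j) (P j) ⊆ P l) →
      (∀ l, ¬ att (y l) (z l) (P l)) → k ≤ m) :
    ∃ w : Z → ℝ, (∀ z, 0 ≤ w z) ∧ ∑ z, w z ≤ 2 * m ∧
      ∀ y, RO.ee (att y) univ ∅ ≤ 1 / 2 → 1 ≤ ∑ z ∈ univ.filter (fun z => ¬ cov y z), w z := by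
  refine ⟨fun z => 2 * CertRO_W cov att univ ∅ ∅ z, ?_, ?_, ?_⟩
  · intro z
    have := CertRO_W_nonneg cov att univ ∅ ∅ z
    positivity
  · rw [← mul_sum]
    have h1 := CertRO_mass cov att m hm univ ∅ ∅ ⟨0, by simp, fun l => l.elim0, fun l => l.elim0,
      fun l => l.elim0, fun j => j.elim0, fun j => j.elim0, fun j => j.elim0, fun j => j.elim0,
      fun j => j.elim0⟩
    linarith
  · intro q hq
    have h1 := (CertRO_low cov att hca q univ ∅ ∅).1 (fun t ht => absurd ht (notMem_empty t))
    rw [← mul_sum]
    linarith

end Pool.Agent.MP5f1228.Asy
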