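import Mathlib
import Pool.Agent.Lib.MP_5f1228_co.Asy.Defs

/-!
# MP_5f1228_co, asymptotic part: basic facts about the classes
-/

set_option autoImplicit false

open scoped Classical
open Finset

namespace Pool.Agent.MP5f1228.Asy

open Pool.Agent.MP5f1228B (Con)

section Graph

variable {V : Type} [Fintype V] [DecidableEq V] {r : ℕ} {G : SimpleGraph V}
  {c : Sym2 V → Fin r} {b t : ℕ} {D0 R : Finset V} {i : Fin r} {u v w : V} {M lam a K : ℕ}

/-- module CLS (file Asy/Cls.lean) -/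
theorem Cl.refl (v : V) : Cl G c b t D0 i v v := Or.inl rfl

theorem Cl.symm (h : Cl G c b t D0 i u v) : Cl G c b t D0 i v u := by
  rcases h with rfl | ⟨hu, hv, hc⟩
  · exact Or.inl rfl
  · exact Or.inr ⟨hv, hu, hc.symm (fun _ _ h => h.symm) hu⟩

theorem Cl.trans (h : Cl G c b t D0 i u v) (h' : Cl G c b t D0 i v w) :
    Cl G c b t D0 i u w := by
  rcases h with rfl | ⟨hu, hv, hc⟩
  · exact h'
  · rcases h' with rfl | ⟨_, hw, hc'⟩
    · exact Or.inr ⟨hu, hv, hc⟩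
    · exact Or.inr ⟨hu, hw, hc.trans hc'⟩

theorem Cl.act_iff (h : Cl G c b t D0 i u v) : u ∈ ActG G c b i ↔ v ∈ ActG G c b i := by
  rcases h with rfl | ⟨hu, hv, _⟩
  · exact Iff.rfl
  · exact ⟨fun _ => hv.1, fun _ => hu.1⟩

theorem Cl.zc (h : Cl G c b t D0 i u v) (hu : Zc G c b D0 i u) : Zc G c b D0 i v := by
  rcases h with rfl | ⟨_, hv, _⟩
  · exact hu
  · exact hv

theorem Cl.of_adj (hu : Zc G c b D0 i u) (hv : Zc G c b D0 i v) (h : (Lk G c b t i).Adj u v) :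
    Cl G c b t D0 i u v :=
  Or.inr ⟨hu, hv, Con.single h hv⟩

theorem Cls_mem_Nb : v ∈ Nb G c i u ↔ (mono G c i).Adj u v := by
  unfold Nb
  rw [mem_filter]
  exact and_iff_right (mem_univ _)

theorem lk_of_mono (hu : u ∈ ActG G c b i) (hv : v ∈ ActG G c b i) (h : v ∈ Nb G c i u) :
    (Lk G c b t i).Adj u v :=
  ⟨(Cls_mem_Nb.1 h).ne, hu, hv, Or.inr h⟩

theorem lk_le_sm : Lk G c b t i ≤ Sm G c b t i := by
  intro x y h
  rcases h.2.2.2 with h' | h'
  · exact Or.inl ⟨h.1, h.2.1, h.2.2.1, h'⟩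
  · exact Or.inr (Cls_mem_Nb.1 h')

theorem mono_le_sm : mono G c i ≤ Sm G c b t i := le_sup_right

/-- a set of pairwise inequivalent vertices is small -/
theorem card_le_of_not_cl (hM : IndB G c b t M) (S : Finset V)
    (h1 : ∀ v ∈ S, Zc G c b D0 i v) (h2 : ∀ v ∈ S, ∀ w ∈ S, v ≠ w → ¬ Cl G c b t D0 i v w) :
    S.card ≤ M :=
  hM i S (fun v hv => (h1 v hv).1) (fun v hv w hw h =>
    h2 v hv w hw h.1 (Cl.of_adj (h1 v hv) (h1 w hw) h))

/-- maximal sets of pairwise inequivalent vertices -/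
theorem exists_class_reps (hM : IndB G c b t M) (i : Fin r) (U : Finset V)
    (hU : ∀ v ∈ U, Zc G c b D0 i v) :
    ∃ S ⊆ U, S.card ≤ M ∧ (∀ v ∈ S, ∀ w ∈ S, v ≠ w → ¬ Cl G c b t D0 i v w) ∧
      ∀ v ∈ U, ∃ w ∈ S, Cl G c b t D0 i w v := by
  obtain ⟨S, hS, hmax⟩ := Finset.exists_max_image
    (U.powerset.filter (fun S => ∀ v ∈ S, ∀ w ∈ S, v ≠ w → ¬ Cl G c b t D0 i v w)) Finset.card
    ⟨∅, by simp⟩
  rw [mem_filter, mem_powerset] at hS
  refine ⟨S, hS.1, card_le_of_not_cl hM S (fun v hv => hU v (hS.1 hv)) hS.2, hS.2, ?_⟩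
  intro v hv
  by_contra hcon
  push Not at hcon
  have hvS : v ∉ S := fun h => hcon v h (Cl.refl v)
  have h1 := hmax (insert v S) (by
    rw [mem_filter, mem_powerset]
    refine ⟨insert_subset hv hS.1, ?_⟩
    intro x hx y hy hxy hcl
    rcases mem_insert.1 hx with ex | hx'
    · rcases mem_insert.1 hy with ey | hy'
      · exact hxy (ex.trans ey.symm)
      · exact hcon y hy' (ex ▸ hcl.symm)
    · rcases mem_insert.1 hy with ey | hy'
      · exact hcon x hx' (ey ▸ hcl)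
      · exact hS.2 x hx' y hy' hxy hcl)
  rw [card_insert_of_notMem hvS] at h1
  omega

end Graph

end Pool.Agent.MP5f1228.Asy
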