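import Mathlib
import Pool.Agent.Lib.MP_5f1228_co.Asy.Defs
import Pool.Agent.Lib.MP_5f1228_co.BCore
import Pool.Agent.Lib.MP_5f1228_co.Ind

/-!
# MP_5f1228_co, module CORE0: the robust situation exists
-/

set_option autoImplicit false

open scoped Classical
open Finset

namespace Pool.Agent.MP5f1228.Asy

open Pool.Agent.MP5f1228B (Con)

section Graph

variable {V : Type} [Fintype V] [DecidableEq V] {r : ℕ} {G : SimpleGraph V}
  {c : Sym2 V → Fin r} {b t : ℕ} {D0 R : Finset V} {i : Fin r} {u v w : V} {M lam a K : ℕ}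

/-- module CORE0 (file Asy/Core0.lean): the robust situation exists -/
theorem exists_rob (G : SimpleGraph V) (c : Sym2 V → Fin r) (b t : ℕ) (lam : ℕ)
    (hM : IndB G c b t M) :
    ∃ D0 : Finset V, D0.card ≤ lam * r * M ∧ Rob G c b t D0 lam := by
  obtain ⟨D, hD, hrob⟩ := Pool.Agent.MP5f1228B.exists_core (r := r)
    (fun i => (Lk G c b t i).Adj) (fun i x y h => (Lk G c b t i).adj_symm h)
    (fun i v => v ∈ ActG G c b i) M lam (by
      intro i J hJ hind
      refine hM i J (fun v hv => hJ v hv) fun v hv w hw h => ?_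
      exact hind v hv w hw (SimpleGraph.ne_of_adj _ h) h)
  refine ⟨D, hD, ?_⟩
  intro i F hF u v hu huF hv hvF h
  unfold Zc at *
  exact hrob i F hF u v hu.1 hu.2 huF hv.1 hv.2 hvF h

theorem indB_of_num (G : SimpleGraph V) (c : Sym2 V → Fin r) {b t : ℕ}
    (h : Fintype.card V + (M + 1) ^ 2 * t < (M + 1) * b) : IndB G c b t M := by
  intro i S hS hind
  refine indep_bound G c h i S hS fun v hv w hw hadj => ?_
  exact hind v hv w hw ⟨hadj.1, hadj.2.1, hadj.2.2.1, Or.inl hadj.2.2.2⟩

end Graph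

end Pool.Agent.MP5f1228.Asy
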