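import Mathlib
import Pool.Agent.Lib.MP_5f1228_co.Asy.Cls
import Pool.Agent.Lib.MP_5f1228_co.Ext

/-!
# MP_5f1228_co, asymptotic part: disjoint cores of several classes
-/

set_option autoImplicit false

open scoped Classical
open Finset

namespace Pool.Agent.MP5f1228.Asy

open Pool.Agent.MP5f1228B (Con)

theorem Cores_reach {V : Type} {Γ : SimpleGraph V} {W : Finset V} {u v : V} (hu : u ∈ W)
    (h : Con Γ.Adj (fun w => w ∈ W) u v) :
    ∀ hv : v ∈ W, (Γ.induce (W : Set V)).Reachable ⟨u, hu⟩ ⟨v, hv⟩ := by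
  induction h with
  | refl => exact fun _ => SimpleGraph.Reachable.refl _
  | @tail x y hx hy ih =>
    intro hv
    have hxW : x ∈ W := Con.end_mem' (show Con Γ.Adj (fun w => w ∈ W) u x from hx) hu
    refine (ih hxW).trans (SimpleGraph.Adj.reachable ?_)
    exact hy.1

section Graph

variable {V : Type} [Fintype V] [DecidableEq V] {r : ℕ} {G : SimpleGraph V}
  {c : Sym2 V → Fin r} {b t : ℕ} {D0 R : Finset V} {i : Fin r} {u v w : V} {M lam a K : ℕ}

/-- the class of `ρ` outside a small set is connected -/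
theorem Cores_conn (hrob : Rob G c b t D0 lam) {ρ : V} (hρ : Zc G c b D0 i ρ) (F : Finset V)
    (hF : F.card < lam) :
    Conn (Lk G c b t i) (univ.filter (fun v => Cl G c b t D0 i ρ v ∧ v ∉ F)) := by
  rintro ⟨u, hu⟩ ⟨v, hv⟩
  have hu' := (mem_filter.1 (mem_coe.1 hu)).2
  have hv' := (mem_filter.1 (mem_coe.1 hv)).2
  have hcl : Cl G c b t D0 i u v := hu'.1.symm.trans hv'.1
  rcases hcl with rfl | ⟨zu, zv, hc⟩
  · exact SimpleGraph.Reachable.refl _
  · have h1 := (hrob i F hF u v zu hu'.2 zv hv'.2 hc).comp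
    refine Cores_reach (mem_coe.1 hu) (h1.monoP ?_) (mem_coe.1 hv)
    intro w hw
    rw [mem_filter]
    refine ⟨mem_univ _, hu'.1.trans (Or.inr ⟨zu, hw.1.1, hw.2.monoP (fun _ h => h.1)⟩), hw.1.2⟩

/-- module CORES (file Asy/Cores.lean): disjoint cores of several classes -/
theorem exists_cores (hM : IndB G c b t M) (hrob : Rob G c b t D0 lam)
    (F : Fin r → Finset V) (f : ℕ) (hF : ∀ i, (F i).card ≤ f) (J : Finset (Fin r × V))
    (hJ1 : ∀ p ∈ J, Zc G c b D0 p.1 p.2)
    (hJ2 : ∀ p ∈ J, ∀ q ∈ J, p.1 = q.1 → p.2 ≠ q.2 → ¬ Cl G c b t D0 p.1 p.2 q.2)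
    (hlam : f + 2 * M * J.card < lam) :
    ∃ C : Fin r × V → Finset V,
      (∀ p ∈ J, (C p).card ≤ 2 * M ∧ Conn (Lk G c b t p.1) (C p) ∧
        ∀ v ∈ C p, Cl G c b t D0 p.1 p.2 v ∧ v ∉ F p.1) ∧
      (∀ p ∈ J, ∀ q ∈ J, p ≠ q → Disjoint (C p) (C q)) ∧
      ∀ p ∈ J, ∀ v, Cl G c b t D0 p.1 p.2 v → v ∉ F p.1 →
        (∃ q ∈ J, v ∈ C q) ∨ ∃ u ∈ C p, (Lk G c b t p.1).Adj v u := by
  clear hJ2
  induction J using Finset.induction_on with
  | empty => exact ⟨fun _ => ∅, by simp, by simp, by simp⟩
  | @insert p J hp ih =>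
    rw [card_insert_of_notMem hp] at hlam
    obtain ⟨C, hC1, hC2, hC3⟩ := ih (fun q hq => hJ1 q (mem_insert_of_mem hq))
      (lt_of_le_of_lt (Nat.add_le_add_left (Nat.mul_le_mul_left _ (Nat.le_succ _)) _) hlam)
    set F' : Finset V := F p.1 ∪ J.biUnion C with hF'
    have hcard : F'.card < lam := by
      have h1 : (J.biUnion C).card ≤ J.card * (2 * M) :=
        card_biUnion_le_card_mul _ _ _ (fun q hq => (hC1 q hq).1)
      have h2 := card_union_le (F p.1) (J.biUnion C)
      have h3 := hF p.1
      nlinarith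
    have hpz := hJ1 p (mem_insert_self p J)
    set W : Finset V := univ.filter (fun v => Cl G c b t D0 p.1 p.2 v ∧ v ∉ F') with hW
    have hconn : Conn (Lk G c b t p.1) W := Cores_conn hrob hpz F' hcard
    have hWm : ∀ v, v ∈ W ↔ Cl G c b t D0 p.1 p.2 v ∧ v ∉ F' := fun v => by
      rw [hW, mem_filter]
      exact and_iff_right (mem_univ _)
    obtain ⟨W0, hW0, hc0, hcard0, hdom⟩ := exists_dom (Lk G c b t p.1) W hconn (M := M)
      (fun S hS hind => hM p.1 S (fun v hv => (((hWm v).1 (hS hv)).1.zc hpz).1) hind)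
    have hdisj : ∀ q ∈ J, Disjoint W0 (C q) := by
      intro q hq
      rw [disjoint_left]
      intro v hv hv'
      exact ((hWm v).1 (hW0 hv)).2 (mem_union_right _ (mem_biUnion.2 ⟨q, hq, hv'⟩))
    have hne : ∀ q ∈ J, q ≠ p := fun q hq h => hp (h ▸ hq)
    refine ⟨Function.update C p W0, ?_, ?_, ?_⟩
    · intro q hq
      rcases mem_insert.1 hq with e | hq'
      · subst e
        rw [Function.update_self]
        refine ⟨hcard0, hc0, fun v hv => ?_⟩
        have := (hWm v).1 (hW0 hv)
        exact ⟨this.1, fun h => this.2 (mem_union_left _ h)⟩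
      · rw [Function.update_of_ne (hne q hq')]
        exact hC1 q hq'
    · intro q hq q' hq' hqq
      rcases mem_insert.1 hq with e | h1
      · rcases mem_insert.1 hq' with e' | h2
        · exact absurd (e.trans e'.symm) hqq
        · rw [e, Function.update_self, Function.update_of_ne (hne q' h2)]
          exact hdisj q' h2
      · rcases mem_insert.1 hq' with e' | h2
        · rw [e', Function.update_self, Function.update_of_ne (hne q h1)]
          exact (hdisj q h1).symm
        · rw [Function.update_of_ne (hne q h1), Function.update_of_ne (hne q' h2)]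
          exact hC2 q h1 q' h2 hqq
    · intro q hq v hv hvF
      rcases mem_insert.1 hq with e | h1
      · subst e
        rw [Function.update_self]
        by_cases hv' : v ∈ J.biUnion C
        · obtain ⟨q', hq', hv''⟩ := mem_biUnion.1 hv'
          refine Or.inl ⟨q', mem_insert_of_mem hq', ?_⟩
          rw [Function.update_of_ne (hne q' hq')]
          exact hv''
        · have hvW : v ∈ W := (hWm v).2 ⟨hv, fun h => by
            rcases mem_union.1 h with h | h
            · exact hvF h
            · exact hv' h⟩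
          rcases hdom v hvW with h | h
          · refine Or.inl ⟨q, mem_insert_self _ _, ?_⟩
            rw [Function.update_self]
            exact h
          · exact Or.inr h
      · rcases hC3 q h1 v hv hvF with ⟨q', hq', hv'⟩ | h
        · refine Or.inl ⟨q', mem_insert_of_mem hq', ?_⟩
          rw [Function.update_of_ne (hne q' hq')]
          exact hv'
        · right
          rw [Function.update_of_ne (hne q h1)]
          exact h

end Graph

end Pool.Agent.MP5f1228.Asy
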