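import Mathlib
import Pool.Agent.Lib.MP_5f1228_co.Asy.Defs

/-!
# MP_5f1228_co: definitions for the exact threshold `1 - 2^(-r)` (large `n`)

Restriction of a system to some fat points, merging of the labels of one colour which are joined to
a thin point `z₀`, extremal configurations.
-/

set_option autoImplicit false

open scoped Classical
open Finset

namespace Pool.Agent.MP5f1228.Asy

open Pool.Agent.MP5f1228B (Con)

namespace Sys

variable {r : ℕ} {X Z L : Type}

/-- restriction to the fat points with `p` -/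
def restrict (S : Sys r X Z L) (p : X → Prop) : Sys r {x // p x} Z L where
  κ i x := S.κ i x.1
  act i x := S.act i x.1
  A i x z := S.A i x.1 z
  Γ := S.Γ
  Γ_symm := S.Γ_symm
  act_congr i x x' := S.act_congr i x.1 x'.1
  A_congr i x x' z := S.A_congr i x.1 x'.1 z
  own i x x' h h' := Subtype.ext (S.own i x.1 x'.1 h h')
  clique i x := S.clique i x.1

/-- the label of `x` in colour `j` belongs to the merged label -/
def Mrg (S : Sys r X Z L) (j : Fin r) (z₀ : Z) (i : Fin r) (x : X) : Prop :=
  i = j ∧ S.act j x ∧ S.A j x z₀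

/-- the thin point `z₀` is removed and the labels of colour `j` joined to it are merged -/
noncomputable def merge (S : Sys r X Z L) (j : Fin r) (z₀ : Z) :
    Sys r X {z : Z // z ≠ z₀} (Option L) where
  κ i x := if S.Mrg j z₀ i x then none else some (S.κ i x)
  act := S.act
  A i x z := S.A i x z.1 ∨ (S.Mrg j z₀ i x ∧ ∃ x', S.Mrg j z₀ i x' ∧ S.A i x' z.1)
  Γ i z z' := S.Γ i z.1 z'.1
  Γ_symm i z z' := S.Γ_symm i z.1 z'.1
  act_congr i x x' h h' := by
    by_cases hx' : S.Mrg j z₀ i x'
    · obtain ⟨rfl, h1, h2⟩ := hx'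
      exact h1
    · by_cases hx : S.Mrg j z₀ i x
      · simp [hx, hx'] at h'
      · simp only [if_neg hx, if_neg hx', Option.some.injEq] at h'
        exact S.act_congr i x x' h h'
  A_congr i x x' z h h' hA := by
    by_cases hx : S.Mrg j z₀ i x
    · by_cases hx' : S.Mrg j z₀ i x'
      · rcases hA with hA | ⟨_, hA⟩
        · exact Or.inr ⟨hx', x, hx, hA⟩
        · exact Or.inr ⟨hx', hA⟩
      · simp [hx, hx'] at h'
    · by_cases hx' : S.Mrg j z₀ i x'
      · simp [hx, hx'] at h'
      · simp only [if_neg hx, if_neg hx', Option.some.injEq] at h'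
        rcases hA with hA | ⟨hA, _⟩
        · exact Or.inl (S.A_congr i x x' z.1 h h' hA)
        · exact absurd hA hx
  own i x x' h h' := by
    have hx : ¬ S.Mrg j z₀ i x := fun hx => h (by obtain ⟨rfl, h1, h2⟩ := hx; exact h1)
    by_cases hx' : S.Mrg j z₀ i x'
    · simp [hx, hx'] at h'
    · simp only [if_neg hx, if_neg hx', Option.some.injEq] at h'
      exact S.own i x x' h h'
  clique i x z z' h hA hA' := by
    have hx : ¬ S.Mrg j z₀ i x := fun hx => h (by obtain ⟨rfl, h1, h2⟩ := hx; exact h1)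
    have h1 : S.A i x z.1 := hA.resolve_right fun h => hx h.1
    have h2 : S.A i x z'.1 := hA'.resolve_right fun h => hx h.1
    rcases S.clique i x z.1 z'.1 h h1 h2 with h3 | h3
    · exact Or.inl (Subtype.ext h3)
    · exact Or.inr h3

/-- Extremal configuration: `T` represents `2 ^ r` words, every word of `T` misses exactly one word
of `T`, all letters are active, every word of `T` has more than `D / 2` fat points and nearly all
fat points have a word of `T`. -/
structure Extr (S : Sys r X Z L) [Fintype X] (T : Finset X) (D : ℕ) : Prop where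
  card : T.card = 2 ^ r
  act : ∀ a ∈ T, ∀ i, S.act i a
  anti : ∃ σ : X → X, (∀ a ∈ T, σ a ∈ T) ∧ (∀ a ∈ T, ∀ i, S.κ i a ≠ S.κ i (σ a)) ∧
    ∀ a ∈ T, ∀ a' ∈ T, a' ≠ σ a → ∃ i, S.κ i a = S.κ i a'
  big : ∀ a ∈ T, D < 2 * (univ.filter (fun x => ∀ i, S.κ i a = S.κ i x)).card
  tot : ((2 : ℝ) ^ r - 1 / (512 * (r : ℝ) ^ 6)) * D <
    ((univ.filter (fun x => ∃ a ∈ T, ∀ i, S.κ i a = S.κ i x)).card : ℝ)

end Sys

end Pool.Agent.MP5f1228.Asy
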