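import Mathlib

/-!
# MP_5f1228_co: the dynamic determinant lemma (module DYN of the all `r` theorem)
-/

set_option autoImplicit false

open scoped Classical
open Finset

namespace Pool.Agent.MP5f1228.Asy

/-- a map constant and injective on the classes of a setoid -/
theorem dyn_code {F : Type} [Infinite F] {P : Type} [Finite P] (s : Setoid P) :
    ∃ a : P → F, ∀ p q, a p = a q ↔ s.r p q := by
  have : Finite (Quotient s) := Quotient.finite s
  let e := Finite.equivFin (Quotient s)
  refine ⟨fun p => Infinite.natEmbedding F ((e (Quotient.mk s p) : Fin _) : ℕ), fun p q => ?_⟩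
  constructor
  · intro h
    have h1 := (Infinite.natEmbedding F).injective h
    have h2 := e.injective (Fin.ext h1)
    exact Quotient.exact h2
  · intro h
    have : Quotient.mk s p = Quotient.mk s q := Quotient.sound h
    simp only [this]

/-- the determinant at `t = 0` -/
theorem dyn_det_zero {F : Type} [Field F] {r m : ℕ} {P : Type} (x' : Fin r → P → F)
    (y b : Fin (m + 1) → P)
    (hcol : ∀ l : Fin m, ∏ i, (x' i (y l.succ) - x' i (b 0)) = 0)
    (h0 : ∏ i, (x' i (y 0) - x' i (b 0)) ≠ 0)
    (hD : (Matrix.of fun l j : Fin m => ∏ i, (x' i (y l.succ) - x' i (b j.succ))).det ≠ 0) :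
    (Matrix.of fun l j : Fin (m + 1) => ∏ i, (x' i (y l) - x' i (b j))).det ≠ 0 := by
  rw [Matrix.det_succ_column_zero, Fin.sum_univ_succ]
  have hz : ∑ i : Fin m, (-1 : F) ^ ((i.succ : Fin (m + 1)) : ℕ) *
      (Matrix.of fun l j : Fin (m + 1) => ∏ i, (x' i (y l) - x' i (b j))) i.succ 0 *
      ((Matrix.of fun l j : Fin (m + 1) => ∏ i, (x' i (y l) - x' i (b j))).submatrix
        i.succ.succAbove Fin.succ).det = 0 := by
    apply Finset.sum_eq_zero
    intro i _
    rw [Matrix.of_apply, hcol i]
    ring
  rw [hz, add_zero]
  have hsub : ((Matrix.of fun l j : Fin (m + 1) => ∏ i, (x' i (y l) - x' i (b j))).submatrix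
        (0 : Fin (m + 1)).succAbove Fin.succ) =
      (Matrix.of fun l j : Fin m => ∏ i, (x' i (y l.succ) - x' i (b j.succ))) := by
    ext l j
    simp [Matrix.submatrix_apply, Fin.succAbove_zero]
  rw [hsub, Matrix.of_apply]
  simp only [Fin.val_zero, pow_zero, one_mul]
  exact mul_ne_zero h0 hD

/-- module DYN -/
theorem dyn {F : Type} [Field F] [Infinite F] {r : ℕ} {P : Type} [Finite P] (m : ℕ)
    (E : Fin r → ℕ → Setoid P) (hE : ∀ i s p q, (E i s).r p q → (E i (s + 1)).r p q)
    (y b : Fin m → P)
    (hcov : ∀ j l : Fin m, j < l → ∃ i, (E i ((j : ℕ) + 1)).r (y l) (b j))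
    (hsep : ∀ (l : Fin m) (i : Fin r), ¬ (E i ((l : ℕ) + 1)).r (y l) (b l)) :
    ∃ x : Fin r → P → F, (∀ i p q, x i p = x i q ↔ (E i 0).r p q) ∧
      (Matrix.of fun l j : Fin m => ∏ i, (x i (y l) - x i (b j))).det ≠ 0 := by
  induction m generalizing E with
  | zero =>
    have hc : ∀ i : Fin r, ∃ a : P → F, ∀ p q, a p = a q ↔ (E i 0).r p q :=
      fun i => dyn_code (E i 0)
    choose a ha using hc
    refine ⟨a, fun i p q => ha i p q, ?_⟩
    rw [Matrix.det_isEmpty]
    exact one_ne_zero
  | succ m ih =>
    obtain ⟨x', hx', hD⟩ := ih (fun i s => E i (s + 1)) (fun i s p q h => hE i (s + 1) p q h)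
      (fun l => y l.succ) (fun l => b l.succ)
      (fun j l hjl => by
        obtain ⟨i, hi⟩ := hcov j.succ l.succ (Fin.succ_lt_succ_iff.mpr hjl)
        refine ⟨i, ?_⟩
        simpa only [Fin.val_succ] using hi)
      (fun l i h => hsep l.succ i (by simpa only [Fin.val_succ] using h))
    have hc : ∀ i : Fin r, ∃ a : P → F, ∀ p q, a p = a q ↔ (E i 0).r p q :=
      fun i => dyn_code (E i 0)
    choose a ha using hc
    -- the determinant as a polynomial in `t`
    let Mt : Matrix (Fin (m + 1)) (Fin (m + 1)) (Polynomial F) := Matrix.of fun l j =>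
      ∏ i, (Polynomial.C (x' i (y l) - x' i (b j)) +
        Polynomial.X * Polynomial.C (a i (y l) - a i (b j)))
    have heval : ∀ t : F, Polynomial.eval t Mt.det =
        (Matrix.of fun l j : Fin (m + 1) =>
          ∏ i, ((x' i (y l) + t * a i (y l)) - (x' i (b j) + t * a i (b j)))).det := by
      intro t
      have h1 : Polynomial.eval t Mt.det = (Mt.map (Polynomial.eval t)).det := by
        have := RingHom.map_det (Polynomial.evalRingHom t) Mt
        rw [Polynomial.coe_evalRingHom] at this
        rw [this]
        rfl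
      rw [h1]
      congr 1
      ext l j
      simp only [Mt, Matrix.map_apply, Matrix.of_apply]
      rw [Polynomial.eval_prod]
      apply Finset.prod_congr rfl
      intro i _
      simp only [Polynomial.eval_add, Polynomial.eval_C, Polynomial.eval_mul, Polynomial.eval_X]
      ring
    have hne : Mt.det ≠ 0 := by
      intro h
      have h1 := heval 0
      rw [h, Polynomial.eval_zero] at h1
      have h2 : (Matrix.of fun l j : Fin (m + 1) =>
          ∏ i, ((x' i (y l) + 0 * a i (y l)) - (x' i (b j) + 0 * a i (b j)))) =
          Matrix.of fun l j : Fin (m + 1) => ∏ i, (x' i (y l) - x' i (b j)) := by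
        ext l j
        simp
      rw [h2] at h1
      refine dyn_det_zero x' y b ?_ ?_ hD h1.symm
      · intro l
        obtain ⟨i, hi⟩ := hcov 0 l.succ (Fin.succ_pos l)
        apply Finset.prod_eq_zero (Finset.mem_univ i)
        rw [sub_eq_zero]
        rw [hx' i]
        exact hi
      · rw [Finset.prod_ne_zero_iff]
        intro i _ h3
        rw [sub_eq_zero, hx' i] at h3
        exact hsep 0 i h3
    -- the bad values of `t`
    have hfin : (({t : F | Polynomial.eval t Mt.det = 0} ∪ {0}) ∪
        ⋃ i : Fin r, ⋃ p : P, ⋃ q : P,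
          {t : F | x' i p ≠ x' i q ∧ x' i p + t * a i p = x' i q + t * a i q}).Finite := by
      refine Set.Finite.union (Set.Finite.union ?_ (Set.finite_singleton 0)) ?_
      · have : {t : F | Polynomial.eval t Mt.det = 0} ⊆ (Mt.det.roots.toFinset : Set F) := by
          intro t ht
          simp only [Finset.mem_coe, Multiset.mem_toFinset]
          exact (Polynomial.mem_roots hne).mpr ht
        exact (Finset.finite_toSet _).subset this
      · refine Set.finite_iUnion fun i => Set.finite_iUnion fun p => Set.finite_iUnion fun q => ?_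
        apply Set.Subsingleton.finite
        rintro t ⟨h1, h2⟩ t' ⟨_, h4⟩
        by_contra htt
        have h5 : (t - t') * (a i p - a i q) = 0 := by linear_combination h2 - h4
        rcases mul_eq_zero.mp h5 with h6 | h6
        · exact htt (sub_eq_zero.mp h6)
        · have h7 : a i p = a i q := sub_eq_zero.mp h6
          apply h1
          rw [h7] at h2
          exact add_right_cancel h2
    obtain ⟨t, ht⟩ := hfin.infinite_compl.nonempty
    simp only [Set.mem_compl_iff, Set.mem_union, Set.mem_ofPred_eq, Set.mem_singleton_iff,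
      Set.mem_iUnion, not_or, not_exists, not_and] at ht
    obtain ⟨⟨ht1, ht0⟩, ht2⟩ := ht
    refine ⟨fun i p => x' i p + t * a i p, fun i p q => ?_, ?_⟩
    · constructor
      · intro h
        have h1 : x' i p = x' i q := by
          by_contra h2
          exact ht2 i p q h2 h
        have h3 : t * a i p = t * a i q := by
          have h4 : x' i p + t * a i p = x' i q + t * a i q := h
          rw [h1] at h4
          exact add_left_cancel h4
        exact (ha i p q).mp (mul_left_cancel₀ ht0 h3)
      · intro h
        have h1 : x' i p = x' i q := (hx' i p q).mpr (hE i 0 p q h)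
        have h2 : a i p = a i q := (ha i p q).mpr h
        simp only [h1, h2]
    · rw [heval t] at ht1
      exact ht1

end Pool.Agent.MP5f1228.Asy
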