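import Mathlib
import Pool.Agent.Lib.MP_5f1228_co.Asy.Cls

/-!
# MP_5f1228_co, asymptotic part: the system of a coloured graph
-/

set_option autoImplicit false

open scoped Classical
open Finset

namespace Pool.Agent.MP5f1228.Asy

open Pool.Agent.MP5f1228B (Con)

section Graph

variable {V : Type} [Fintype V] [DecidableEq V] {r : ℕ} {G : SimpleGraph V}
  {c : Sym2 V → Fin r} {b t : ℕ} {D0 R : Finset V} {i : Fin r} {u v w : V} {M lam a K : ℕ}

theorem GSys_cl_of_eq (h : {w | Cl G c b t D0 i u w} = {w | Cl G c b t D0 i v w}) :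
    Cl G c b t D0 i u v := by
  have h1 : v ∈ {w | Cl G c b t D0 i v w} := Cl.refl v
  rw [← h] at h1
  exact h1

theorem GSys_eq_of_cl (h : Cl G c b t D0 i u v) :
    {w | Cl G c b t D0 i u w} = {w | Cl G c b t D0 i v w} := by
  ext w
  exact ⟨fun h' => h.symm.trans h', fun h' => h.trans h'⟩

/-- module GSYS (file Asy/GSys.lean): the system of a coloured graph -/
noncomputable def gsys (G : SimpleGraph V) (c : Sym2 V → Fin r) (b t : ℕ) (D0 R : Finset V)
    (hR : ∀ v ∈ R, v ∉ D0) (a K : ℕ) :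
    Sys r {v // Typ G c b t D0 R a K v} {z // z ∈ D0 ∪ R} (Set V) where
  κ i x := {w | Cl G c b t D0 i x.1 w}
  act i x := x.1 ∈ ActG G c b i
  A i x z := AG G c b t D0 K i x.1 z.1
  Γ i z z' := GG G c b t D0 i z.1 z'.1
  Γ_symm := by
    rintro i z z' (h | ⟨h1, h2, h3, h4⟩)
    · exact Or.inl h.symm
    · exact Or.inr ⟨h2, h1, h3.symm, h4.symm⟩
  act_congr := by
    intro i x x' hx h
    exact (GSys_cl_of_eq h).act_iff.1 hx
  A_congr := by
    intro i x x' z hx h hA
    have hcl := GSys_cl_of_eq h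
    rcases hA with ⟨_, h1⟩ | ⟨h1, _⟩
    · refine Or.inl ⟨hcl.act_iff.1 hx, ?_⟩
      rcases h1 with ⟨h2, h3⟩ | ⟨h2, h3⟩
      · exact Or.inl ⟨h2, hcl.symm.trans h3⟩
      · refine Or.inr ⟨h2, h3.trans (card_le_card ?_)⟩
        intro u hu
        rw [mem_filter] at hu ⊢
        exact ⟨hu.1, hu.2.1, hcl.symm.trans hu.2.2⟩
    · exact absurd hx h1
  own := by
    intro i x x' hx h
    rcases GSys_cl_of_eq h with h1 | ⟨h1, _⟩
    · exact Subtype.ext h1
    · exact absurd h1.1 hx
  clique := by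
    intro i x z z' hx hz hz'
    by_cases hne : z = z'
    · exact Or.inl hne
    · right
      rcases hz with ⟨h1, _⟩ | ⟨_, h2, h3⟩
      · exact absurd h1 hx
      · rcases hz' with ⟨h1, _⟩ | ⟨_, h2', h3'⟩
        · exact absurd h1 hx
        · have hne' : z.1 ≠ z'.1 := fun h => hne (Subtype.ext h)
          exact Or.inl ⟨hne', h2, h2', Or.inl (x.2.clq i z.1 z.2 z'.1 z'.2 hne' h3 h3')⟩

theorem GSys_card_nb (v : V) :
    ((univ.filter (fun i : Fin r => v ∉ ActG G c b i)).biUnion (fun i => Nb G c i v)).card ≤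
      r * b := by
  refine (card_biUnion_le_card_mul _ _ b ?_).trans ?_
  · intro i hi
    have h1 := (mem_filter.1 hi).2
    unfold ActG at h1
    rw [mem_filter] at h1
    have h2 : ¬ b ≤ (Nb G c i v).card := fun h => h1 ⟨mem_univ _, h⟩
    omega
  · refine Nat.mul_le_mul_right _ ?_
    calc (univ.filter (fun i : Fin r => v ∉ ActG G c b i)).card ≤ (univ : Finset (Fin r)).card :=
          card_le_card (filter_subset _ _)
      _ = r := by simp

theorem gsys_h1 [DecidableRel G.Adj] (hR : ∀ v ∈ R, v ∉ D0) {d : ℕ}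
    (hd : ∀ v, (univ.filter (fun w => ¬ G.Adj v w)).card ≤ d)
    (x : {v // Typ G c b t D0 R a K v}) :
    (univ.filter (fun x' => ∀ i, (gsys G c b t D0 R hR a K).κ i x ≠
      (gsys G c b t D0 R hR a K).κ i x')).card ≤ d + r * b + a := by
  have h1 : (univ.filter (fun x' => ∀ i, (gsys G c b t D0 R hR a K).κ i x ≠
      (gsys G c b t D0 R hR a K).κ i x')).card =
      ((univ.filter (fun x' => ∀ i, (gsys G c b t D0 R hR a K).κ i x ≠
      (gsys G c b t D0 R hR a K).κ i x')).image Subtype.val).card :=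
    (card_image_of_injective _ Subtype.val_injective).symm
  rw [h1]
  have h2 : (univ.filter (fun x' => ∀ i, (gsys G c b t D0 R hR a K).κ i x ≠
      (gsys G c b t D0 R hR a K).κ i x')).image Subtype.val ⊆
      (univ.filter (fun w => ¬ G.Adj x.1 w)) ∪
      (((univ.filter (fun i : Fin r => x.1 ∉ ActG G c b i)).biUnion (fun i => Nb G c i x.1)) ∪
      (univ.filter (fun y => ∃ i, x.1 ∈ ActG G c b i ∧ y ∈ Nb G c i x.1 ∧
        y ∉ ActG G c b i))) := by
    intro y hy
    obtain ⟨x', hx', rfl⟩ := mem_image.1 hy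
    have hx'' := (mem_filter.1 hx').2
    by_cases hadj : G.Adj x.1 x'.1
    · rw [mem_union, mem_union]
      right
      set i := c s(x.1, x'.1) with hi
      have hnb : x'.1 ∈ Nb G c i x.1 := Cls_mem_Nb.2 ⟨hadj, rfl⟩
      by_cases hact : x.1 ∈ ActG G c b i
      · by_cases hact' : x'.1 ∈ ActG G c b i
        · exfalso
          apply hx'' i
          exact GSys_eq_of_cl (Cl.of_adj ⟨hact, x.2.notD⟩ ⟨hact', x'.2.notD⟩
            (lk_of_mono hact hact' hnb))
        · right
          rw [mem_filter]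
          exact ⟨mem_univ _, i, hact, hnb, hact'⟩
      · left
        rw [mem_biUnion]
        exact ⟨i, mem_filter.2 ⟨mem_univ _, hact⟩, hnb⟩
    · exact mem_union_left _ (mem_filter.2 ⟨mem_univ _, hadj⟩)
  refine (card_le_card h2).trans ((card_union_le _ _).trans ?_)
  have h3 := card_union_le ((univ.filter (fun i : Fin r => x.1 ∉ ActG G c b i)).biUnion
    (fun i => Nb G c i x.1)) (univ.filter (fun y => ∃ i, x.1 ∈ ActG G c b i ∧ y ∈ Nb G c i x.1 ∧
        y ∉ ActG G c b i))
  have h4 := GSys_card_nb (G := G) (c := c) (b := b) x.1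
  have h5 := x.2.few
  have h6 := hd x.1
  have h7 := h3.trans (Nat.add_le_add h4 h5)
  rw [Nat.add_assoc]
  exact Nat.add_le_add h6 h7

theorem gsys_h2 [DecidableRel G.Adj] (hR : ∀ v ∈ R, v ∉ D0) {d : ℕ}
    (hd : ∀ v, (univ.filter (fun w => ¬ G.Adj v w)).card ≤ d) (z : {z // z ∈ D0 ∪ R}) :
    (univ.filter (fun x => ¬ (gsys G c b t D0 R hR a K).Cov x z)).card ≤ d + r * b := by
  have h1 : (univ.filter (fun x => ¬ (gsys G c b t D0 R hR a K).Cov x z)).card =
      ((univ.filter (fun x => ¬ (gsys G c b t D0 R hR a K).Cov x z)).image Subtype.val).card :=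
    (card_image_of_injective _ Subtype.val_injective).symm
  rw [h1]
  have h2 : (univ.filter (fun x => ¬ (gsys G c b t D0 R hR a K).Cov x z)).image Subtype.val ⊆
      (univ.filter (fun w => ¬ G.Adj z.1 w)) ∪
      ((univ.filter (fun i : Fin r => z.1 ∉ ActG G c b i)).biUnion (fun i => Nb G c i z.1)) := by
    intro y hy
    obtain ⟨x, hx, rfl⟩ := mem_image.1 hy
    have hx' := (mem_filter.1 hx).2
    by_cases hadj : G.Adj z.1 x.1
    · rw [mem_union]
      right
      set i := c s(z.1, x.1) with hi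
      have hnb : x.1 ∈ Nb G c i z.1 := Cls_mem_Nb.2 ⟨hadj, rfl⟩
      have hnb' : z.1 ∈ Nb G c i x.1 := Cls_mem_Nb.2 (Cls_mem_Nb.1 hnb).symm
      by_cases hact : z.1 ∈ ActG G c b i
      · exfalso
        apply hx'
        refine ⟨i, ?_⟩
        show AG G c b t D0 K i x.1 z.1
        by_cases hact' : x.1 ∈ ActG G c b i
        · left
          refine ⟨hact', ?_⟩
          by_cases hz : z.1 ∈ D0
          · exact Or.inr ⟨hz, x.2.many i z.1 hz hact' hnb⟩
          · exact Or.inl ⟨hz, Cl.of_adj ⟨hact', x.2.notD⟩ ⟨hact, hz⟩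
              (lk_of_mono hact' hact hnb')⟩
        · exact Or.inr ⟨hact', hact, hnb⟩
      · rw [mem_biUnion]
        exact ⟨i, mem_filter.2 ⟨mem_univ _, hact⟩, hnb⟩
    · exact mem_union_left _ (mem_filter.2 ⟨mem_univ _, hadj⟩)
  exact (card_le_card h2).trans ((card_union_le _ _).trans
    (Nat.add_le_add (hd z.1) (GSys_card_nb (G := G) (c := c) (b := b) z.1)))

end Graph

end Pool.Agent.MP5f1228.Asy
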