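import Mathlib

/-!
# MP_5f1228_co, module SDR: distinct representatives
-/

set_option autoImplicit false

open scoped Classical
open Finset

namespace Pool.Agent.MP5f1228.Asy

/-- module SDR -/
theorem exists_sdr {ι W : Type} [Nonempty W] (I : Finset ι) (A : ι → Finset W) (B : Finset W)
    (h : ∀ i ∈ I, B.card + I.card ≤ (A i).card) :
    ∃ u : ι → W, (∀ i ∈ I, u i ∈ A i ∧ u i ∉ B) ∧ ∀ i ∈ I, ∀ j ∈ I, u i = u j → i = j := by
  induction I using Finset.induction_on with
  | empty => exact ⟨fun _ => Classical.arbitrary W, by simp, by simp⟩
  | @insert a I ha ih =>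
    obtain ⟨u, hu1, hu2⟩ := ih (fun i hi => by
      have := h i (mem_insert_of_mem hi)
      rw [card_insert_of_notMem ha] at this
      omega)
    obtain ⟨w, hw, hw'⟩ : ∃ w ∈ A a, w ∉ B ∪ I.image u := by
      by_contra hcon
      push Not at hcon
      have h1 := card_le_card (show A a ⊆ B ∪ I.image u from hcon)
      have h2 := h a (mem_insert_self a I)
      rw [card_insert_of_notMem ha] at h2
      have h3 := (card_union_le B (I.image u)).trans
        (Nat.add_le_add_left (card_image_le (s := I) (f := u)) _)
      omega
    rw [mem_union, not_or, mem_image] at hw'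
    refine ⟨fun i => if i = a then w else u i, ?_, ?_⟩
    · intro i hi
      beta_reduce
      by_cases hia : i = a
      · rw [if_pos hia, hia]
        exact ⟨hw, hw'.1⟩
      · rw [if_neg hia]
        exact hu1 i ((mem_insert.1 hi).resolve_left hia)
    · intro i hi j hj hij
      beta_reduce at hij
      by_cases hia : i = a
      · by_cases hja : j = a
        · rw [hia, hja]
        · rw [if_pos hia, if_neg hja] at hij
          exact absurd ⟨j, (mem_insert.1 hj).resolve_left hja, hij.symm⟩ hw'.2
      · by_cases hja : j = a
        · rw [if_neg hia, if_pos hja] at hij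
          exact absurd ⟨i, (mem_insert.1 hi).resolve_left hia, hij⟩ hw'.2
        · rw [if_neg hia, if_neg hja] at hij
          exact hu2 i ((mem_insert.1 hi).resolve_left hia) j
            ((mem_insert.1 hj).resolve_left hja) hij

end Pool.Agent.MP5f1228.Asy
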