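import Mathlib
import Pool.Agent.Lib.MP_5f1228_co.Asy.Cls
import Pool.Agent.Lib.MP_5f1228_co.Asy.GSys
import Pool.Agent.Lib.MP_5f1228_co.Asy.Cores
import Pool.Agent.Lib.MP_5f1228_co.Asy.Sdr

set_option autoImplicit false

open scoped Classical
open Finset

namespace Pool.Agent.MP5f1228.Asy

open Pool.Agent.MP5f1228B (Con)

/-- two points reached from `y` are related if points joined to the same label and adjacent
points are. -/
theorem lift_chain {r : ℕ} {X Z L : Type} (S : Sys r X Z L) (i : Fin r) (y : X) (W : Finset Z)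
    (J : Z → Z → Prop) (hr : ∀ z ∈ W, J z z) (hs : ∀ z z', J z z' → J z' z)
    (ht : ∀ z z' z'', J z z' → J z' z'' → J z z'')
    (hA : ∀ x, S.act i x → ∀ z ∈ W, ∀ z' ∈ W, S.A i x z → S.A i x z' → J z z')
    (hG : ∀ z ∈ W, ∀ z' ∈ W, S.Γ i z z' → J z z') (z z' : Z) (hz : z ∈ W) (hz' : z' ∈ W)
    (h : S.Rch i y W (Sum.inr z)) (h' : S.Rch i y W (Sum.inr z')) : J z z' := by
  have inv : ∀ p : X ⊕ Z, S.Rch i y W p → ∀ z, z ∈ W →
      (match p with
        | Sum.inl x => S.A i x z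
        | Sum.inr w => z = w) → ∃ z0 ∈ W, S.A i y z0 ∧ J z z0 := by
    intro p hp
    induction hp with
    | refl =>
      intro z hz hN
      exact ⟨z, hz, hN, hr z hz⟩
    | @tail p q hb hc ih =>
      intro z hz hN
      obtain ⟨he, hok⟩ := hc
      have hend := MP5f1228B.Con.end_mem (show Con (S.Edge i) (S.Ok i W) (Sum.inl y) p from hb)
      rcases p with x | w <;> rcases q with x' | w'
      · have hk : S.κ i x = S.κ i x' := he
        have ha : S.act i x' := hok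
        exact ih z hz (S.A_congr i x' x z ha hk.symm hN)
      · have hk : S.A i x w' := he
        simp only at hN
        subst hN
        exact ih z hz hk
      · have hk : S.A i x' w := he
        have ha : S.act i x' := hok
        have hw : w ∈ W := by
          rcases hend with h | h
          · cases h
          · exact h
        obtain ⟨z0, h1, h2, h3⟩ := ih w hw rfl
        exact ⟨z0, h1, h2, ht _ _ _ (hA x' ha z hz w hw hN hk) h3⟩
      · have hk : S.Γ i w w' := he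
        simp only at hN
        subst hN
        have hw : w ∈ W := by
          rcases hend with h | h
          · cases h
          · exact h
        obtain ⟨z0, h1, h2, h3⟩ := ih w hw rfl
        exact ⟨z0, h1, h2, ht _ _ _ (hs _ _ (hG w hw z hz hk)) h3⟩
  obtain ⟨z0, h1, h2, h3⟩ := inv _ h z hz rfl
  obtain ⟨z1, h4, h5, h6⟩ := inv _ h' z' hz' rfl
  have h7 : J z0 z1 := by
    by_cases ha : S.act i y
    · exact hA y ha z0 h1 z1 h4 h2 h5
    · rcases S.clique i y z0 z1 ha h2 h5 with h | h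
      · rw [← h]; exact hr z0 h1
      · exact hG z0 h1 z1 h4 h
  exact ht _ _ _ h3 (ht _ _ _ h7 (hs _ _ h6))

theorem lift_good_cases {r : ℕ} {X Z L : Type} (S : Sys r X Z L) (y : X) (Y : Finset Z)
    (h : S.Good y Y) : ∃ W : Fin r → Finset Z, (∀ i, ∀ z ∈ W i, S.Rch i y (W i) (Sum.inr z)) ∧
      (∀ i j, i ≠ j → Disjoint (W i) (W j)) ∧ ∀ z ∈ Y, ∃ i, z ∈ W i := by
  obtain ⟨W, hW, hWd, hWu⟩ := h
  refine ⟨W, hW, hWd, fun z hz => ?_⟩
  rw [← hWu, mem_biUnion] at hz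
  obtain ⟨i, _, hi⟩ := hz
  exact ⟨i, hi⟩

section Graph

variable {V : Type} [Fintype V] [DecidableEq V] {r : ℕ} {G : SimpleGraph V}
  {c : Sym2 V → Fin r} {b t : ℕ} {D0 R : Finset V} {i : Fin r} {u v w : V} {M lam a K : ℕ}

/-- `z` is attached to the class of `ρ` -/
def lift_At (G : SimpleGraph V) (c : Sym2 V → Fin r) (b t : ℕ) (D0 : Finset V) (K : ℕ)
    (i : Fin r) (ρ z : V) : Prop :=
  (z ∉ D0 ∧ Cl G c b t D0 i ρ z) ∨
    (z ∈ D0 ∧ K ≤ (univ.filter (fun u => u ∈ Nb G c i z ∧ Cl G c b t D0 i ρ u)).card)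

theorem lift_At_congr {ρ ρ' z : V} (h : Cl G c b t D0 i ρ' ρ)
    (hA : lift_At G c b t D0 K i ρ z) : lift_At G c b t D0 K i ρ' z := by
  rcases hA with ⟨h1, h2⟩ | ⟨h1, h2⟩
  · exact Or.inl ⟨h1, h.trans h2⟩
  · refine Or.inr ⟨h1, h2.trans (card_le_card ?_)⟩
    intro u hu
    rw [mem_filter] at hu ⊢
    exact ⟨hu.1, hu.2.1, h.trans hu.2.2⟩

/-- the reached thin points outside `D0` are active -/
theorem lift_active (hR : ∀ v ∈ R, v ∉ D0) (y : {v // Typ G c b t D0 R a K v})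
    (W : Finset {z // z ∈ D0 ∪ R}) (z : {z // z ∈ D0 ∪ R})
    (h : (gsys G c b t D0 R hR a K).Rch i y W (Sum.inr z)) (hz : z.1 ∉ D0) :
    z.1 ∈ ActG G c b i := by
  unfold Sys.Rch MP5f1228B.Con at h
  cases h with
  | @tail p _ hb hc =>
    obtain ⟨he, -⟩ := hc
    rcases p with x | w
    · have h1 : AG G c b t D0 K i x.1 z.1 := he
      rcases h1 with ⟨h2, h3⟩ | ⟨_, h3, _⟩
      · rcases h3 with ⟨_, h4⟩ | ⟨h4, _⟩
        · exact h4.act_iff.1 h2
        · exact absurd h4 hz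
      · exact h3
    · have h1 : GG G c b t D0 i w.1 z.1 := he
      rcases h1 with h2 | ⟨_, _, h3, h4⟩
      · exact h2.2.2.1
      · rcases h4 with h4 | h4
        · exact absurd h4 h3
        · exact h4.2.1.1

/-- everything about one colour -/
theorem lift_conn (hR : ∀ v ∈ R, v ∉ D0) (y : {v // Typ G c b t D0 R a K v})
    (W : Finset {z // z ∈ D0 ∪ R})
    (hW : ∀ z ∈ W, (gsys G c b t D0 R hR a K).Rch i y W (Sum.inr z))
    (V0 : Finset V) (hWV : ∀ z ∈ W, z.1 ∈ V0) (S : Finset V) (C : V → Finset V)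
    (hCV : ∀ ρ ∈ S, ∀ v ∈ C ρ, v ∈ V0) (hC : ∀ ρ ∈ S, Conn (Lk G c b t i) (C ρ))
    -- points attached to a class of `S` are adjacent in `V0` to the core
    (hat : ∀ ρ ∈ S, ∀ z ∈ W, lift_At G c b t D0 K i ρ z.1 →
      ∃ v ∈ C ρ, Con (Sm G c b t i).Adj (fun w => w ∈ V0) z.1 v)
    -- classes of S
    (hS1 : ∀ x : {v // Typ G c b t D0 R a K v}, x.1 ∈ ActG G c b i → (∃ z ∈ W,
      (gsys G c b t D0 R hR a K).A i x z) → ∃ ρ ∈ S, Cl G c b t D0 i ρ x.1)
    (hS2 : ∀ z ∈ W, z.1 ∉ D0 → Zc G c b D0 i z.1 → ∃ ρ ∈ S, Cl G c b t D0 i ρ z.1)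
    -- every class of S is used
    (hS3 : ∀ ρ ∈ S, ∃ z ∈ W, lift_At G c b t D0 K i ρ z.1)
    (hV0 : ∀ v ∈ V0, (∃ z ∈ W, v = z.1) ∨ (∃ ρ ∈ S, v ∈ C ρ) ∨
      ∃ z ∈ W, (Sm G c b t i).Adj v z.1) : Conn (Sm G c b t i) V0 := by
  have hsymm : ∀ u v, (Sm G c b t i).Adj u v → (Sm G c b t i).Adj v u :=
    fun u v h => h.symm
  -- cores are connected in V0
  have hcore : ∀ ρ ∈ S, ∀ u ∈ C ρ, ∀ v ∈ C ρ,
      Con (Sm G c b t i).Adj (fun w => w ∈ V0) u v := by
    intro ρ hρ u hu v hv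
    have h1 := hC ρ hρ ⟨u, hu⟩ ⟨v, hv⟩
    rw [SimpleGraph.reachable_iff_reflTransGen] at h1
    have h2 : ∀ q : (C ρ : Set V), Relation.ReflTransGen
        ((Lk G c b t i).induce (C ρ : Set V)).Adj ⟨u, hu⟩ q →
        Con (Sm G c b t i).Adj (fun w => w ∈ V0) u q.1 := by
      intro q hq
      induction hq with
      | refl => exact MP5f1228B.Con.refl _
      | @tail p q hb hc ih =>
        refine MP5f1228B.Con.tail ih (lk_le_sm ?_) (hCV ρ hρ q.1 q.2)
        exact hc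
    exact h2 _ h1
  -- two points attached to the same class
  have hone : ∀ ρ ∈ S, ∀ z ∈ W, ∀ z' ∈ W, lift_At G c b t D0 K i ρ z.1 →
      lift_At G c b t D0 K i ρ z'.1 →
      Con (Sm G c b t i).Adj (fun w => w ∈ V0) z.1 z'.1 := by
    intro ρ hρ z hz z' hz' h h'
    obtain ⟨v, hv, h1⟩ := hat ρ hρ z hz h
    obtain ⟨v', hv', h1'⟩ := hat ρ hρ z' hz' h'
    exact h1.trans ((hcore ρ hρ v hv v' hv').trans (h1'.symm hsymm (hWV z' hz')))
  -- all points of W
  have hall : ∀ z ∈ W, ∀ z' ∈ W, Con (Sm G c b t i).Adj (fun w => w ∈ V0) z.1 z'.1 := by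
    intro z hz z' hz'
    have h := lift_chain (gsys G c b t D0 R hR a K) i y W
      (fun z z' => z.1 ∈ V0 ∧ z'.1 ∈ V0 ∧ Con (Sm G c b t i).Adj (fun w => w ∈ V0) z.1 z'.1)
      (fun z hz => ⟨hWV z hz, hWV z hz, MP5f1228B.Con.refl _⟩)
      (fun z z' h => ⟨h.2.1, h.1, h.2.2.symm hsymm h.1⟩)
      (fun z z' z'' h h' => ⟨h.1, h'.2.1, h.2.2.trans h'.2.2⟩) ?_ ?_ z z' hz hz' (hW z hz)
      (hW z' hz')
    · exact h.2.2
    · intro x hx z hz z' hz' h h'
      refine ⟨hWV z hz, hWV z' hz', ?_⟩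
      obtain ⟨ρ, hρ, hcl⟩ := hS1 x hx ⟨z, hz, h⟩
      have hx' : x.1 ∈ ActG G c b i := hx
      have hatt : ∀ z : {z // z ∈ D0 ∪ R}, (gsys G c b t D0 R hR a K).A i x z →
          lift_At G c b t D0 K i ρ z.1 := by
        intro z h
        have h1 : AG G c b t D0 K i x.1 z.1 := h
        rcases h1 with ⟨_, h2⟩ | ⟨h2, _⟩
        · exact lift_At_congr hcl h2
        · exact absurd hx' h2
      exact hone ρ hρ z hz z' hz' (hatt z h) (hatt z' h')
    · intro z hz z' hz' h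
      refine ⟨hWV z hz, hWV z' hz', ?_⟩
      have h1 : GG G c b t D0 i z.1 z'.1 := h
      rcases h1 with h2 | ⟨h2, h3, h4, h5⟩
      · exact MP5f1228B.Con.single (lk_le_sm h2) (hWV z' hz')
      · rcases h5 with h5 | h5
        · exact absurd h5 h4
        · obtain ⟨ρ, hρ, hcl⟩ := hS2 z hz h2 h5.1
          exact hone ρ hρ z hz z' hz' (Or.inl ⟨h2, hcl⟩) (Or.inl ⟨h3, hcl.trans (Or.inr h5)⟩)
  -- every point of V0 is joined to a point of W
  have hpt : ∀ v ∈ V0, ∃ z ∈ W, Con (Sm G c b t i).Adj (fun w => w ∈ V0) z.1 v := by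
    intro v hv
    rcases hV0 v hv with ⟨z, hz, rfl⟩ | ⟨ρ, hρ, h⟩ | ⟨z, hz, h⟩
    · exact ⟨z, hz, MP5f1228B.Con.refl _⟩
    · obtain ⟨z, hz, h1⟩ := hS3 ρ hρ
      obtain ⟨v', hv', h2⟩ := hat ρ hρ z hz h1
      exact ⟨z, hz, h2.trans (hcore ρ hρ v' hv' v h)⟩
    · exact ⟨z, hz, MP5f1228B.Con.single h.symm hv⟩
  intro p q
  obtain ⟨z, hz, h1⟩ := hpt p.1 p.2
  obtain ⟨z', hz', h2⟩ := hpt q.1 q.2
  have h3 : Con (Sm G c b t i).Adj (fun w => w ∈ V0) p.1 q.1 :=
    (h1.symm hsymm (hWV z hz)).trans ((hall z hz z' hz').trans h2)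
  rw [SimpleGraph.reachable_iff_reflTransGen]
  have h4 : ∀ w, Con (Sm G c b t i).Adj (fun w => w ∈ V0) p.1 w → ∀ hw : w ∈ V0,
      Relation.ReflTransGen ((Sm G c b t i).induce (V0 : Set V)).Adj p ⟨w, hw⟩ := by
    intro w h
    induction h with
    | refl => intro hw; exact Relation.ReflTransGen.refl
    | @tail u w hb hc ih =>
      intro hw
      have hu : u ∈ V0 := MP5f1228B.Con.end_mem' (show Con (Sm G c b t i).Adj (fun w => w ∈ V0) p.1 u from hb)
        p.2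
      exact Relation.ReflTransGen.tail (ih hu) hc.1
  exact h4 _ h3 q.2

/-- module LIFT (file Asy/Lift.lean) -/
theorem lift (hM : IndB G c b t M) (hrob : Rob G c b t D0 lam) (hR : ∀ v ∈ R, v ∉ D0)
    (hRep : ∀ v, v ∉ D0 → ∃ ρ ∈ R, We G c b t D0 ρ v)
    (hlam : R.card + 2 * M * (r * M) < lam)
    (hK : D0.card + R.card + 2 * M * (r * M) + D0.card * (r * M) < K)
    (y : {v // Typ G c b t D0 R a K v}) (hy : (gsys G c b t D0 R hR a K).Good y univ) :
    ∃ V0 : Fin r → Finset V, (∀ i, Conn (Sm G c b t i) (V0 i)) ∧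
      (∀ i j, i ≠ j → Disjoint (V0 i) (V0 j)) ∧
      (∀ v, ∃ i, v ∈ V0 i ∨ ∃ u ∈ V0 i, (Sm G c b t i).Adj v u) ∧
      ∑ i, (V0 i).card ≤ D0.card + R.card + 2 * M * (r * M) + D0.card * (r * M) := by
  obtain ⟨W, hW, hWd, hWu⟩ := lift_good_cases _ _ _ hy
  -- the sets in the graph
  set W' : Fin r → Finset V := fun i => (W i).image Subtype.val with hW'
  have hmem : ∀ i v, v ∈ W' i ↔ ∃ z ∈ W i, z.1 = v := by
    intro i v; simp only [hW', mem_image]
  have hW'sub : ∀ i, ∀ v ∈ W' i, v ∈ D0 ∪ R := by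
    intro i v hv
    obtain ⟨z, _, rfl⟩ := (hmem i v).1 hv
    exact z.2
  have hW'd : ∀ i j, i ≠ j → ∀ v, v ∈ W' i → v ∈ W' j → False := by
    intro i j hij v hv hv'
    obtain ⟨z, hz, rfl⟩ := (hmem i _).1 hv
    obtain ⟨z', hz', h⟩ := (hmem j _).1 hv'
    have : z' = z := Subtype.ext h
    subst this
    exact (Finset.disjoint_left.1 (hWd i j hij)) hz hz'
  have hW'u : ∀ v, v ∈ D0 ∪ R → ∃ i, v ∈ W' i := by
    intro v hv
    obtain ⟨i, hi⟩ := hWu ⟨v, hv⟩ (mem_univ _)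
    exact ⟨i, (hmem i v).2 ⟨_, hi, rfl⟩⟩
  have hW'card : ∑ i, (W' i).card ≤ D0.card + R.card := by
    have h1 : ∑ i, (W' i).card = (univ.biUnion W').card := by
      rw [card_biUnion]
      intro i _ j _ hij
      rw [Function.onFun, Finset.disjoint_left]
      exact fun v hv hv' => hW'd i j hij v hv hv'
    rw [h1]
    refine (card_le_card ?_).trans (card_union_le D0 R)
    intro v hv
    rw [mem_biUnion] at hv
    obtain ⟨i, _, hi⟩ := hv
    exact hW'sub i v hi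
  set F : Fin r → Finset V := fun i => R \ W' i with hF
  have hFmem : ∀ i v, v ∈ F i ↔ v ∈ R ∧ v ∉ W' i := by
    intro i v; simp only [hF, mem_sdiff]
  -- used vertices
  set U : Fin r → Finset V := fun i => univ.filter (fun v => Zc G c b D0 i v ∧
    ((∃ z ∈ W i, z.1 ∉ D0 ∧ Cl G c b t D0 i z.1 v) ∨
      ∃ x : {v // Typ G c b t D0 R a K v}, x.1 ∈ ActG G c b i ∧
        (∃ z ∈ W i, (gsys G c b t D0 R hR a K).A i x z) ∧ Cl G c b t D0 i x.1 v)) with hU
  have hUmem : ∀ i v, v ∈ U i ↔ Zc G c b D0 i v ∧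
    ((∃ z ∈ W i, z.1 ∉ D0 ∧ Cl G c b t D0 i z.1 v) ∨
      ∃ x : {v // Typ G c b t D0 R a K v}, x.1 ∈ ActG G c b i ∧
        (∃ z ∈ W i, (gsys G c b t D0 R hR a K).A i x z) ∧ Cl G c b t D0 i x.1 v) := by
    intro i v
    simp only [hU, mem_filter, mem_univ, true_and]
  have hreps := fun i => exists_class_reps hM i (U i) (fun v hv => ((hUmem i v).1 hv).1)
  choose S hSU hSc hSne hSrep using hreps
  set J : Finset (Fin r × V) := univ.biUnion (fun i => (S i).image (fun ρ => (i, ρ))) with hJ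
  have hJmem : ∀ p : Fin r × V, p ∈ J ↔ p.2 ∈ S p.1 := by
    intro p
    simp only [hJ, mem_biUnion, mem_univ, true_and, mem_image]
    constructor
    · rintro ⟨i, ρ, h, rfl⟩; exact h
    · intro h; exact ⟨p.1, p.2, h, rfl⟩
  have hJcard : J.card ≤ r * M := by
    refine card_biUnion_le.trans ?_
    refine (Finset.sum_le_sum fun i _ => (card_image_le.trans (hSc i))).trans ?_
    simp
  have hSzc : ∀ i, ∀ ρ ∈ S i, Zc G c b D0 i ρ := fun i ρ hρ => ((hUmem i ρ).1 (hSU i hρ)).1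
  obtain ⟨C, hC1, hC2, hC3⟩ := exists_cores hM hrob F R.card
    (fun i => card_le_card sdiff_subset) J
    (fun p hp => hSzc p.1 p.2 ((hJmem p).1 hp))
    (fun p hp q hq h1 h2 => by
      have h3 := (hJmem p).1 hp
      have h4 := (hJmem q).1 hq
      rw [← h1] at h4
      exact hSne p.1 p.2 h3 q.2 h4 h2)
    (by
      refine lt_of_le_of_lt ?_ hlam
      have := Nat.mul_le_mul_left (2 * M) hJcard
      omega)
  -- connectors
  set B : Finset V := D0 ∪ R ∪ J.biUnion C with hB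
  have hCcard : ∑ p ∈ J, (C p).card ≤ 2 * M * (r * M) := by
    refine (Finset.sum_le_sum fun p hp => (hC1 p hp).1).trans ?_
    rw [sum_const, smul_eq_mul, mul_comm]
    exact Nat.mul_le_mul_left _ hJcard
  have hBcard : B.card ≤ D0.card + R.card + 2 * M * (r * M) := by
    refine (card_union_le _ _).trans ?_
    refine Nat.add_le_add (card_union_le _ _) (card_biUnion_le.trans hCcard)
  set I : Finset (V × (Fin r × V)) := (D0 ×ˢ J).filter (fun q =>
    K ≤ (univ.filter (fun u => u ∈ Nb G c q.2.1 q.1 ∧ Cl G c b t D0 q.2.1 q.2.2 u)).card)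
    with hI
  have hImem : ∀ q : V × (Fin r × V), q ∈ I ↔ (q.1 ∈ D0 ∧ q.2 ∈ J) ∧
    K ≤ (univ.filter (fun u => u ∈ Nb G c q.2.1 q.1 ∧ Cl G c b t D0 q.2.1 q.2.2 u)).card := by
    intro q
    rw [hI, mem_filter, mem_product]
  have hIcard : I.card ≤ D0.card * (r * M) := by
    refine (card_filter_le _ _).trans ?_
    rw [card_product]
    exact Nat.mul_le_mul_left _ hJcard
  haveI : Nonempty V := ⟨y.1⟩
  obtain ⟨e, he1, he2⟩ := exists_sdr I (fun q => univ.filter (fun u => u ∈ Nb G c q.2.1 q.1 ∧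
    Cl G c b t D0 q.2.1 q.2.2 u)) B (by
      intro q hq
      have h1 := ((hImem q).1 hq).2
      refine le_trans ?_ h1
      omega)
  have he1' : ∀ q ∈ I, e q ∈ Nb G c q.2.1 q.1 ∧ Cl G c b t D0 q.2.1 q.2.2 (e q) ∧ e q ∉ B := by
    intro q hq
    obtain ⟨h1, h2⟩ := he1 q hq
    rw [mem_filter] at h1
    exact ⟨h1.2.1, h1.2.2, h2⟩
  -- the sets V0
  set V0 : Fin r → Finset V := fun i => W' i ∪ (J.filter (fun p => p.1 = i)).biUnion C ∪
    (I.filter (fun q => q.2.1 = i ∧ q.1 ∈ W' i)).image e with hV0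
  have hV0mem : ∀ i v, v ∈ V0 i ↔ v ∈ W' i ∨ (∃ p ∈ J, p.1 = i ∧ v ∈ C p) ∨
      ∃ q ∈ I, q.2.1 = i ∧ q.1 ∈ W' i ∧ e q = v := by
    intro i v
    simp only [hV0, mem_union, mem_biUnion, mem_filter, mem_image]
    constructor
    · rintro ((h | ⟨p, ⟨h1, h2⟩, h3⟩) | ⟨q, ⟨h1, h2, h3⟩, h4⟩)
      · exact Or.inl h
      · exact Or.inr (Or.inl ⟨p, h1, h2, h3⟩)
      · exact Or.inr (Or.inr ⟨q, h1, h2, h3, h4⟩)
    · rintro (h | ⟨p, h1, h2, h3⟩ | ⟨q, h1, h2, h3, h4⟩)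
      · exact Or.inl (Or.inl h)
      · exact Or.inl (Or.inr ⟨p, ⟨h1, h2⟩, h3⟩)
      · exact Or.inr ⟨q, ⟨h1, h2, h3⟩, h4⟩
  -- cores of colour j meet the thin points only in W' j
  have hCW : ∀ p ∈ J, ∀ v ∈ C p, v ∈ D0 ∪ R → v ∈ W' p.1 := by
    intro p hp v hv hvDR
    obtain ⟨h1, h2⟩ := (hC1 p hp).2.2 v hv
    have h3 := h1.zc (hSzc p.1 p.2 ((hJmem p).1 hp))
    rw [mem_union] at hvDR
    have h4 : v ∈ R := hvDR.resolve_left h3.2
    by_contra h5
    exact h2 ((hFmem _ _).2 ⟨h4, h5⟩)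
  -- attached points are joined to the core
  have hatt : ∀ i, ∀ ρ ∈ S i, ∀ z ∈ W i, lift_At G c b t D0 K i ρ z.1 →
      ∃ v ∈ C (i, ρ), Con (Sm G c b t i).Adj (fun w => w ∈ V0 i) z.1 v := by
    intro i ρ hρ z hz hA
    have hp : (i, ρ) ∈ J := (hJmem _).2 hρ
    have hzW : z.1 ∈ W' i := (hmem i _).2 ⟨z, hz, rfl⟩
    have hCV0 : ∀ v ∈ C (i, ρ), v ∈ V0 i := fun v hv =>
      (hV0mem i v).2 (Or.inr (Or.inl ⟨(i, ρ), hp, rfl, hv⟩))
    rcases hA with ⟨h1, h2⟩ | ⟨h1, h2⟩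
    · have h3 : z.1 ∉ F i := fun h => ((hFmem _ _).1 h).2 hzW
      rcases hC3 (i, ρ) hp z.1 h2 h3 with ⟨q, hq, h4⟩ | ⟨u, hu, h4⟩
      · -- z is in a core
        have h5 : q.1 = i := by
          by_contra hne
          exact hW'd _ _ hne z.1 (hCW q hq z.1 h4 z.2) hzW
        have h6 : q.2 = ρ := by
          by_contra hne
          have h7 := ((hC1 q hq).2.2 z.1 h4).1
          rw [h5] at h7
          have h8 := (hJmem q).1 hq
          rw [h5] at h8
          exact hSne i q.2 h8 ρ hρ hne (h7.trans h2.symm)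
        have h7 : q = (i, ρ) := Prod.ext h5 h6
        rw [h7] at h4
        exact ⟨z.1, h4, MP5f1228B.Con.refl _⟩
      · exact ⟨u, hu, MP5f1228B.Con.single (lk_le_sm h4) (hCV0 u hu)⟩
    · have hq : (z.1, (i, ρ)) ∈ I := (hImem _).2 ⟨⟨h1, hp⟩, h2⟩
      obtain ⟨h3, h4, h5⟩ := he1' _ hq
      simp only at h3 h4
      have h6 : e (z.1, (i, ρ)) ∈ V0 i :=
        (hV0mem i _).2 (Or.inr (Or.inr ⟨_, hq, rfl, hzW, rfl⟩))
      have h7 : (Sm G c b t i).Adj z.1 (e (z.1, (i, ρ))) := by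
        refine mono_le_sm ?_
        unfold Nb at h3
        rw [mem_filter] at h3
        exact h3.2
      have h8 : e (z.1, (i, ρ)) ∉ F i := by
        intro h
        refine h5 ?_
        rw [hB, mem_union, mem_union]
        exact Or.inl (Or.inr ((hFmem _ _).1 h).1)
      rcases hC3 (i, ρ) hp _ h4 h8 with ⟨q, hq', h9⟩ | ⟨u, hu, h9⟩
      · exfalso
        refine h5 ?_
        rw [hB, mem_union]
        exact Or.inr (mem_biUnion.2 ⟨q, hq', h9⟩)
      · exact ⟨u, hu, MP5f1228B.Con.tail (MP5f1228B.Con.single h7 h6) (lk_le_sm h9) (hCV0 u hu)⟩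
  refine ⟨V0, ?_, ?_, ?_, ?_⟩
  · -- connected
    intro i
    refine lift_conn hR y (W i) (hW i) (V0 i) ?_ (S i) (fun ρ => C (i, ρ)) ?_ ?_ (hatt i) ?_ ?_
      ?_ ?_
    · intro z hz
      exact (hV0mem i _).2 (Or.inl ((hmem i _).2 ⟨z, hz, rfl⟩))
    · intro ρ hρ v hv
      exact (hV0mem i v).2 (Or.inr (Or.inl ⟨(i, ρ), (hJmem _).2 hρ, rfl, hv⟩))
    · intro ρ hρ
      exact (hC1 (i, ρ) ((hJmem _).2 hρ)).2.1
    · intro x hx hz
      refine hSrep i x.1 ((hUmem i _).2 ⟨⟨hx, x.2.notD⟩, Or.inr ⟨x, hx, hz, Cl.refl _⟩⟩)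
    · intro z hz h1 h2
      exact hSrep i z.1 ((hUmem i _).2 ⟨h2, Or.inl ⟨z, hz, h1, Cl.refl _⟩⟩)
    · intro ρ hρ
      rcases ((hUmem i ρ).1 (hSU i hρ)).2 with ⟨z, hz, h1, h2⟩ | ⟨x, hx, ⟨z, hz, h1⟩, h2⟩
      · exact ⟨z, hz, Or.inl ⟨h1, h2.symm⟩⟩
      · refine ⟨z, hz, ?_⟩
        have h3 : AG G c b t D0 K i x.1 z.1 := h1
        rcases h3 with ⟨_, h4⟩ | ⟨h4, _⟩
        · exact lift_At_congr h2.symm h4
        · exact absurd hx h4
    · intro v hv
      rcases (hV0mem i v).1 hv with h | ⟨p, hp, h1, h2⟩ | ⟨q, hq, h1, h2, h3⟩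
      · obtain ⟨z, hz, h⟩ := (hmem i v).1 h
        exact Or.inl ⟨z, hz, h.symm⟩
      · refine Or.inr (Or.inl ⟨p.2, ?_, ?_⟩)
        · have := (hJmem p).1 hp
          rwa [h1] at this
        · have : (i, p.2) = p := by rw [← h1]
          rw [this]; exact h2
      · obtain ⟨z, hz, h4⟩ := (hmem i _).1 h2
        refine Or.inr (Or.inr ⟨z, hz, ?_⟩)
        obtain ⟨h5, _, _⟩ := he1' q hq
        rw [h1, h3, ← h4] at h5
        unfold Nb at h5
        rw [mem_filter] at h5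
        exact (mono_le_sm h5.2).symm
  · -- disjoint
    intro i j hij
    rw [Finset.disjoint_left]
    intro v hv hv'
    have hBW : ∀ j, v ∈ W' j → v ∈ B := by
      intro j h
      rw [hB, mem_union]
      exact Or.inl (hW'sub j v h)
    have hBC : ∀ p ∈ J, v ∈ C p → v ∈ B := by
      intro p hp h
      rw [hB, mem_union]
      exact Or.inr (mem_biUnion.2 ⟨p, hp, h⟩)
    rcases (hV0mem i v).1 hv with h | ⟨p, hp, h1, h2⟩ | ⟨q, hq, h1, h2, h3⟩ <;>
      rcases (hV0mem j v).1 hv' with h' | ⟨p', hp', h1', h2'⟩ | ⟨q', hq', h1', h2', h3'⟩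
    · exact hW'd i j hij v h h'
    · have h4 := hCW p' hp' v h2' (hW'sub i v h)
      rw [h1'] at h4
      exact hW'd i j hij v h h4
    · refine (he1' q' hq').2.2 ?_
      rw [h3']; exact hBW i h
    · have h4 := hCW p hp v h2 (hW'sub j v h')
      rw [h1] at h4
      exact hW'd i j hij v h4 h'
    · have hne : p ≠ p' := by
        rintro rfl
        exact hij (h1.symm.trans h1')
      exact (Finset.disjoint_left.1 (hC2 p hp p' hp' hne)) h2 h2'
    · refine (he1' q' hq').2.2 ?_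
      rw [h3']; exact hBC p hp h2
    · refine (he1' q hq).2.2 ?_
      rw [h3]; exact hBW j h'
    · refine (he1' q hq).2.2 ?_
      rw [h3]; exact hBC p' hp' h2'
    · have h4 : q = q' := he2 q hq q' hq' (h3.trans h3'.symm)
      subst h4
      exact hij (h1.symm.trans h1')
  · -- domination
    intro v
    by_cases hv : v ∈ D0 ∪ R
    · obtain ⟨i, hi⟩ := hW'u v hv
      exact ⟨i, Or.inl ((hV0mem i v).2 (Or.inl hi))⟩
    · have hvD : v ∉ D0 := fun h => hv (mem_union_left _ h)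
      have hvR : v ∉ R := fun h => hv (mem_union_right _ h)
      obtain ⟨s, hs, hwe⟩ := hRep v hvD
      obtain ⟨i, hi⟩ := hW'u s (mem_union_right _ hs)
      obtain ⟨z, hz, hzs⟩ := (hmem i s).1 hi
      have hsact : s ∈ ActG G c b i := by
        rw [← hzs]
        exact lift_active hR y (W i) z (hW i z hz) (by rw [hzs]; exact hR s hs)
      have hvact : v ∈ ActG G c b i := (hwe i).1.1 hsact
      have hcl := (hwe i).2 hsact
      obtain ⟨ρ, hρ, h1⟩ := hSrep i v ((hUmem i v).2 ⟨⟨hvact, hvD⟩, Or.inl ⟨z, hz, by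
        rw [hzs]; exact ⟨hR s hs, hcl⟩⟩⟩)
      have hp : (i, ρ) ∈ J := (hJmem _).2 hρ
      rcases hC3 (i, ρ) hp v h1 (fun h => hvR ((hFmem _ _).1 h).1) with
        ⟨q, hq, h2⟩ | ⟨u, hu, h2⟩
      · exact ⟨q.1, Or.inl ((hV0mem _ v).2 (Or.inr (Or.inl ⟨q, hq, rfl, h2⟩)))⟩
      · exact ⟨i, Or.inr ⟨u, (hV0mem _ u).2 (Or.inr (Or.inl ⟨(i, ρ), hp, rfl, hu⟩)),
          lk_le_sm h2⟩⟩
  · -- sizes
    have h1 : ∀ i, (V0 i).card ≤ (W' i).card +
        (∑ p ∈ J.filter (fun p => p.1 = i), (C p).card) +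
        (I.filter (fun q => q.2.1 = i)).card := by
      intro i
      refine (card_union_le _ _).trans ?_
      refine Nat.add_le_add ((card_union_le _ _).trans ?_) (card_image_le.trans ?_)
      · exact Nat.add_le_add le_rfl card_biUnion_le
      · refine card_le_card fun q hq => ?_
        rw [mem_filter] at hq ⊢
        exact ⟨hq.1, hq.2.1⟩
    refine (Finset.sum_le_sum fun i _ => h1 i).trans ?_
    rw [sum_add_distrib, sum_add_distrib]
    have h2 : ∑ i, ∑ p ∈ J.filter (fun p => p.1 = i), (C p).card = ∑ p ∈ J, (C p).card :=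
      Finset.sum_fiberwise J (fun p => p.1) (fun p => (C p).card)
    have h3 : ∑ i, (I.filter (fun q => q.2.1 = i)).card = I.card := by
      have h4 := Finset.sum_fiberwise I (fun q => q.2.1) (fun _ => 1)
      simpa using h4
    rw [h2, h3]
    exact Nat.add_le_add (Nat.add_le_add hW'card hCcard) hIcard

end Graph

end Pool.Agent.MP5f1228.Asy
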