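import Mathlib
import Pool.Agent.Lib.MP_5f1228_co.Asy.Defs
import Pool.Agent.Lib.MP_5f1228_co.Num

/-!
# MP_5f1228_co: choice of the parameters for the asymptotically exact threshold (all `r`)
-/

set_option autoImplicit false

open scoped Classical
open Finset

namespace Pool.Agent.MP5f1228.Asy

open Filter

/-- module PARAMS (file Asy/Params.lean) -/
theorem exists_params (r : ℕ) (hr : 1 ≤ r) (ε : ℝ) (hε : ε < 1 / 2 ^ r) :
    ∃ M lam q d K n₀ : ℕ, 
      q = (M + 1) ^ r ∧ d = lam * r * M ∧ q + 2 * M * (r * M) < lam ∧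
      d + q + 2 * M * (r * M) + d * (r * M) < K ∧
      ∀ n : ℕ, n₀ ≤ n → ∃ b t a m e : ℕ, 
        n + (M + 1) ^ 2 * t < (M + 1) * b ∧ (∀ k : ℕ, (k : ℝ) ≤ ε * n → k ≤ e) ∧
        2 ^ r * (e + r * b + a) + (d + (r * b * n) / (a + 1) + r * (d + q) ^ 2 * t +
          r * d * M * K) < n ∧
        d + q + 2 * M * (r * M) + d * (r * M) + m ≤ t ∧ r * n ^ 2 * (r - 1) ^ m < r ^ m := by
  set C : ℝ := 2 ^ r with hC
  have hC0 : 0 < C := by positivity
  have hC1 : 1 ≤ C := one_le_pow₀ (by norm_num)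
  set g : ℝ := min 1 (1 - C * ε) with hg
  have hg0 : 0 < g := by
    rw [lt_div_iff₀ hC0] at hε
    rw [hg, lt_min_iff]
    constructor
    · norm_num
    · linarith
  have hg1 : g ≤ 1 := min_le_left _ _
  have hg2 : C * ε ≤ 1 - g := by
    have := min_le_right 1 (1 - C * ε)
    rw [← hg] at this
    linarith
  have hr0 : (0 : ℝ) < r := by exact_mod_cast (by omega : 0 < r)
  set δ : ℝ := g / (8 * C) with hδ
  have hδ0 : 0 < δ := by positivity
  set β : ℝ := g * δ / (8 * r) with hβ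
  have hβ0 : 0 < β := by positivity
  obtain ⟨M', hM'⟩ := exists_nat_ge (2 / β)
  set M : ℕ := M' + 1 with hM
  have hMβ : 2 ≤ ((M : ℝ) + 1) * β := by
    rw [div_le_iff₀ hβ0] at hM'
    have : (M : ℝ) = M' + 1 := by rw [hM]; push_cast; ring
    rw [this]
    nlinarith
  set q : ℕ := (M + 1) ^ r with hq
  set lam : ℕ := q + 2 * M * (r * M) + 1 with hlam
  set d : ℕ := lam * r * M with hd
  set c0 : ℕ := d + q + 2 * M * (r * M) + d * (r * M) with hc0
  set K : ℕ := c0 + 1 with hK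
  set c1 : ℕ := d + r * (d + q) ^ 2 + r * d * M * K with hc1
  -- conditions on t
  have e1 : ∀ᶠ t : ℕ in atTop, (M + 1) ^ 2 + (M + 1) ≤ t := eventually_ge_atTop _
  have e2 : ∀ᶠ t : ℕ in atTop, (c1 : ℝ) / (g / 8) < t := by
    obtain ⟨k, hk⟩ := exists_nat_gt ((c1 : ℝ) / (g / 8))
    filter_upwards [eventually_ge_atTop k] with t ht
    exact hk.trans_le (by exact_mod_cast ht)
  have e3 : ∀ᶠ t : ℕ in atTop, c0 ≤ t := eventually_ge_atTop _
  have e4 : ∀ᶠ t : ℕ in atTop, r * ((t - c0 + c0 + 1) ^ 2) ^ 2 *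
      (r - 1) ^ (t - c0) < r ^ (t - c0) :=
    (tendsto_sub_atTop_nat c0).eventually (num_exp r c0 hr)
  obtain ⟨t0, ht0⟩ := ((e1.and e2).and (e3.and e4)).exists_forall_of_atTop
  refine ⟨M, lam, q, d, K, t0 ^ 2, rfl, rfl, by omega, by omega, ?_⟩
  intro n hn
  have htn : t0 ≤ Nat.sqrt n := by
    rw [Nat.le_sqrt']
    exact hn
  obtain ⟨⟨h1, h2⟩, h3, h4⟩ := ht0 _ htn
  set t := Nat.sqrt n with ht
  have hsq : t ^ 2 ≤ n := Nat.sqrt_le' n
  have hlt : n < (t + 1) ^ 2 := Nat.lt_succ_sqrt' n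
  have ht1 : 1 ≤ t := by nlinarith
  have hn0 : 0 < n := by nlinarith
  have hn0' : (0 : ℝ) < n := by exact_mod_cast hn0
  refine ⟨⌊β * n⌋₊, t, ⌊δ * n⌋₊, t - c0, ⌊ε * n⌋₊, ?_, ?_, ?_, by omega, ?_⟩
  · have hb : β * n < (⌊β * n⌋₊ : ℝ) + 1 := Nat.lt_floor_add_one _
    have h5 : (n : ℝ) + ((M : ℝ) + 1) ^ 2 * t < ((M : ℝ) + 1) * (⌊β * n⌋₊ : ℝ) := by
      have h6 : ((M : ℝ) + 1) * (β * n) < ((M : ℝ) + 1) * ((⌊β * n⌋₊ : ℝ) + 1) :=
        mul_lt_mul_of_pos_left hb (by positivity)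
      have h7 : 2 * (n : ℝ) ≤ ((M : ℝ) + 1) * (β * n) := by
        rw [← mul_assoc]
        exact mul_le_mul_of_nonneg_right hMβ (Nat.cast_nonneg n)
      have h8 : (M + 1) ^ 2 * t + (M + 1) ≤ n := by
        refine le_trans ?_ hsq
        rw [pow_two t]
        calc (M + 1) ^ 2 * t + (M + 1) ≤ (M + 1) ^ 2 * t + (M + 1) * t := by nlinarith
          _ = ((M + 1) ^ 2 + (M + 1)) * t := by ring
          _ ≤ t * t := Nat.mul_le_mul_right _ h1
      have h9 : ((M : ℝ) + 1) ^ 2 * t + ((M : ℝ) + 1) ≤ n := by exact_mod_cast h8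
      nlinarith
    exact_mod_cast h5
  · intro k hk
    exact Nat.le_floor hk
  · have hb : (⌊β * n⌋₊ : ℝ) ≤ β * n := Nat.floor_le (by positivity)
    have ha : (⌊δ * n⌋₊ : ℝ) ≤ δ * n := Nat.floor_le (by positivity)
    have ha' : δ * n < (⌊δ * n⌋₊ : ℝ) + 1 := Nat.lt_floor_add_one _
    have he : C * (⌊ε * n⌋₊ : ℝ) ≤ (1 - g) * n := by
      rcases le_or_gt 0 ε with h | h
      · have h5 : (⌊ε * n⌋₊ : ℝ) ≤ ε * n := Nat.floor_le (by positivity)
        calc C * (⌊ε * n⌋₊ : ℝ) ≤ C * (ε * n) := by gcongr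
          _ = (C * ε) * n := by ring
          _ ≤ (1 - g) * n := by gcongr
      · have h5 : ⌊ε * n⌋₊ = 0 := Nat.floor_of_nonpos (by nlinarith)
        rw [h5, Nat.cast_zero, mul_zero]
        apply mul_nonneg
        · linarith
        · exact hn0'.le
    have h5 : C * (r * (⌊β * n⌋₊ : ℝ)) ≤ g / 8 * n := by
      calc C * (r * (⌊β * n⌋₊ : ℝ)) ≤ C * (r * (β * n)) := by gcongr
        _ = g * g / 64 * n := by
          rw [hβ, hδ]
          field_simp
          ring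
        _ ≤ g / 8 * n := by
          apply mul_le_mul_of_nonneg_right _ hn0'.le
          nlinarith
    have h6 : C * (⌊δ * n⌋₊ : ℝ) ≤ g / 8 * n := by
      calc C * (⌊δ * n⌋₊ : ℝ) ≤ C * (δ * n) := by gcongr
        _ = g / 8 * n := by
          rw [hδ]
          field_simp
    have h7 : (((r * ⌊β * n⌋₊ * n) / (⌊δ * n⌋₊ + 1) : ℕ) : ℝ) ≤ g / 8 * n := by
      refine Nat.cast_div_le.trans ?_
      push_cast
      rw [div_le_iff₀ (by positivity)]
      calc (r : ℝ) * (⌊β * n⌋₊ : ℝ) * n ≤ r * (β * n) * n := by gcongr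
        _ = g / 8 * n * (δ * n) := by
          rw [hβ]
          field_simp
        _ ≤ g / 8 * n * ((⌊δ * n⌋₊ : ℝ) + 1) := by
          apply mul_le_mul_of_nonneg_left ha'.le
          positivity
    have h8 : (c1 : ℝ) * t < g / 8 * n := by
      rw [div_lt_iff₀ (by positivity)] at h2
      have ht1 : (0 : ℝ) < t := by exact_mod_cast (by omega : 0 < t)
      have h7 : (t : ℝ) ^ 2 ≤ n := by exact_mod_cast hsq
      calc (c1 : ℝ) * t < t * (g / 8) * t := mul_lt_mul_of_pos_right h2 ht1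
        _ = g / 8 * (t : ℝ) ^ 2 := by ring
        _ ≤ g / 8 * n := by gcongr
    have h9 : d + r * (d + q) ^ 2 * t + r * d * M * K ≤ c1 * t := by
      rw [hc1]
      nlinarith [Nat.zero_le d, Nat.zero_le (r * d * M * K)]
    have h9' : (d : ℝ) + r * (d + q) ^ 2 * t + r * d * M * K ≤ c1 * t := by exact_mod_cast h9
    have h10 : (2 : ℝ) ^ r * ((⌊ε * n⌋₊ : ℝ) + r * (⌊β * n⌋₊ : ℝ) + (⌊δ * n⌋₊ : ℝ)) +
        ((d : ℝ) + (((r * ⌊β * n⌋₊ * n) / (⌊δ * n⌋₊ + 1) : ℕ) : ℝ) + r * (d + q) ^ 2 * t +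
          r * d * M * K) < n := by
      rw [← hC]
      nlinarith
    exact_mod_cast h10
  · refine lt_of_le_of_lt ?_ h4
    have h5 : t - c0 + c0 = t := Nat.sub_add_cancel h3
    rw [h5]
    gcongr

end Pool.Agent.MP5f1228.Asy
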