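import Mathlib
import Pool.Agent.Lib.MP_5f1228_co.Asy.Cls

/-!
# MP_5f1228_co, asymptotic part: representatives of the words
-/

set_option autoImplicit false

open scoped Classical
open Finset

namespace Pool.Agent.MP5f1228.Asy

open Pool.Agent.MP5f1228B (Con)

section Graph

variable {V : Type} [Fintype V] [DecidableEq V] {r : ℕ} {G : SimpleGraph V}
  {c : Sym2 V → Fin r} {b t : ℕ} {D0 R : Finset V} {i : Fin r} {u v w : V} {M lam a K : ℕ}

/-- module REPS (file Asy/Reps.lean) -/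
theorem exists_reps (hM : IndB G c b t M) (D0 : Finset V) :
    ∃ R : Finset V, (∀ v ∈ R, v ∉ D0) ∧ R.card ≤ (M + 1) ^ r ∧
      ∀ v, v ∉ D0 → ∃ ρ ∈ R, We G c b t D0 ρ v := by
  have h1 := fun i : Fin r => exists_class_reps hM (D0 := D0) i
    (univ.filter (fun v => Zc G c b D0 i v)) (fun v hv => (mem_filter.1 hv).2)
  choose S hS1 hS2 hS3 hS4 using h1
  -- the code of a vertex
  have hcode : ∀ v : V, ∃ f : Fin r → Option V, v ∉ D0 → ∀ i,
      (f i = none ∧ v ∉ ActG G c b i) ∨
        (∃ w ∈ S i, f i = some w ∧ v ∈ ActG G c b i ∧ Cl G c b t D0 i w v) := by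
    intro v
    by_cases hv : v ∈ D0
    · exact ⟨fun _ => none, fun h => absurd hv h⟩
    · have h2 : ∀ i, ∃ o : Option V, (o = none ∧ v ∉ ActG G c b i) ∨
        (∃ w ∈ S i, o = some w ∧ v ∈ ActG G c b i ∧ Cl G c b t D0 i w v) := by
        intro i
        by_cases ha : v ∈ ActG G c b i
        · obtain ⟨w, hw, hcl⟩ := hS4 i v (mem_filter.2 ⟨mem_univ _, ha, hv⟩)
          exact ⟨some w, Or.inr ⟨w, hw, rfl, ha, hcl⟩⟩
        · exact ⟨none, Or.inl ⟨rfl, ha⟩⟩
      choose f hf using h2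
      exact ⟨f, fun _ i => hf i⟩
  choose f hf using hcode
  set T : Finset (Fin r → Option V) := (univ.filter (fun v => v ∉ D0)).image f with hT
  have hTc : T.card ≤ (M + 1) ^ r := by
    have h2 : T ⊆ Fintype.piFinset (fun i => Finset.insertNone (S i)) := by
      intro g hg
      obtain ⟨v, hv, rfl⟩ := mem_image.1 hg
      rw [Fintype.mem_piFinset]
      intro i
      rcases hf v (mem_filter.1 hv).2 i with ⟨h, _⟩ | ⟨w, hw, h, _⟩
      · rw [h]
        exact Finset.none_mem_insertNone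
      · rw [h]
        exact Finset.some_mem_insertNone.2 hw
    refine (card_le_card h2).trans ?_
    rw [Fintype.card_piFinset]
    calc ∏ i, (Finset.insertNone (S i)).card ≤ ∏ _i : Fin r, (M + 1) := by
          refine Finset.prod_le_prod' (fun i _ => ?_)
          rw [Finset.card_insertNone]
          exact Nat.add_le_add_right (hS2 i) 1
      _ = (M + 1) ^ r := by simp
  have hpre : ∀ g, g ∈ T → ∃ v, v ∉ D0 ∧ f v = g := by
    intro g hg
    obtain ⟨v, hv, rfl⟩ := mem_image.1 hg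
    exact ⟨v, (mem_filter.1 hv).2, rfl⟩
  choose p hp using hpre
  refine ⟨T.attach.image (fun g => p g.1 g.2), ?_, ?_, ?_⟩
  · intro v hv
    obtain ⟨g, _, rfl⟩ := mem_image.1 hv
    exact (hp g.1 g.2).1
  · refine card_image_le.trans ?_
    rw [card_attach]
    exact hTc
  · intro v hv
    have hvT : f v ∈ T := mem_image.2 ⟨v, mem_filter.2 ⟨mem_univ _, hv⟩, rfl⟩
    refine ⟨p (f v) hvT, mem_image.2 ⟨⟨f v, hvT⟩, mem_attach _ _, rfl⟩, ?_⟩
    obtain ⟨h2, h3⟩ := hp (f v) hvT
    intro i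
    have h4 := hf _ h2 i
    have h5 := hf _ hv i
    rw [h3] at h4
    rcases h4 with ⟨e1, e2⟩ | ⟨w, _, e1, e2, e3⟩
    · rcases h5 with ⟨_, e5⟩ | ⟨w', _, e4, _⟩
      · exact ⟨⟨fun h => absurd h e2, fun h => absurd h e5⟩, fun h => absurd h e2⟩
      · rw [e1] at e4
        exact absurd e4 (by simp)
    · rcases h5 with ⟨e4, _⟩ | ⟨w', _, e4, e5, e6⟩
      · rw [e1] at e4
        exact absurd e4 (by simp)
      · rw [e1] at e4
        obtain rfl : w = w' := Option.some_injective _ e4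
        exact ⟨⟨fun _ => e5, fun _ => e2⟩, fun _ => e3.symm.trans e6⟩

end Graph

end Pool.Agent.MP5f1228.Asy
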