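import Mathlib
import Pool.Agent.Lib.MP_5f1228_co.Asy.Defs
import Pool.Agent.Lib.MP_5f1228_co.Res

/-!
# MP_5f1228_co, module RES2: random reservoirs for strong or monochromatic adjacency
-/

set_option autoImplicit false

open scoped Classical
open Finset

namespace Pool.Agent.MP5f1228.Asy

open Pool.Agent.MP5f1228B (Con)

/-- module RES2 (file Asy/Res2.lean) -/
theorem exists_partition2 {V : Type} [Fintype V] [DecidableEq V] {r : ℕ} (G : SimpleGraph V)
    (c : Sym2 V → Fin r) {b t m : ℕ} (V0 : Fin r → Finset V)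
    (hconn : ∀ i, Conn (Sm G c b t i) (V0 i))
    (hdisj : ∀ i j, i ≠ j → Disjoint (V0 i) (V0 j))
    (hdom : ∀ v, ∃ i, v ∈ V0 i ∨ ∃ u ∈ V0 i, (Sm G c b t i).Adj v u)
    (hs : (∑ i, (V0 i).card) + m ≤ t)
    (hnum : r * (Fintype.card V) ^ 2 * (r - 1) ^ m < r ^ m) :
    ∃ F : V → Fin r, ∀ i, ((mono G c i).induce {v | F v = i}).Preconnected := by
  set U : Finset V := univ.biUnion V0 with hU
  have hUc : U.card + m ≤ t := (Nat.add_le_add_right card_biUnion_le m).trans hs
  have hmU : ∀ v, v ∈ U ↔ ∃ i, v ∈ V0 i := by intro v; simp [hU]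
  -- the random function
  let X : Type := {x : Fin r × V × V // (Str G c b t x.1).Adj x.2.1 x.2.2}
  obtain ⟨f, hf⟩ := res_exists (V := V) (r := r) (X := X) (fun x => x.1.1)
    (fun x => (Nb G c x.1.1 x.1.2.1 ∩ Nb G c x.1.1 x.1.2.2) \ U) (m := m)
    (by
      rcases isEmpty_or_nonempty V with h | ⟨⟨v⟩⟩
      · exact Or.inr Fintype.card_eq_zero
      · obtain ⟨i, _⟩ := hdom v
        exact Or.inl i.pos)
    (by
      rintro ⟨⟨i, v, u⟩, h⟩
      have h1 : t ≤ (Nb G c i v ∩ Nb G c i u).card := h.2.2.2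
      have h2 := le_card_sdiff U (Nb G c i v ∩ Nb G c i u)
      simp only
      omega)
    (by
      refine lt_of_le_of_lt (Nat.mul_le_mul_right _ ?_) hnum
      refine (Fintype.card_subtype_le _).trans ?_
      rw [Fintype.card_prod, Fintype.card_prod, Fintype.card_fin, sq])
  have hf' : ∀ i v u, (Str G c b t i).Adj v u → ∃ a, (mono G c i).Adj v a ∧
      (mono G c i).Adj u a ∧ a ∉ U ∧ f a = i := by
    intro i v u h
    obtain ⟨a, ha, hfa⟩ := hf ⟨(i, v, u), h⟩
    simp only [mem_sdiff, mem_inter] at ha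
    refine ⟨a, ?_, ?_, ha.2, hfa⟩
    · have := ha.1.1
      unfold Nb at this
      simpa using this
    · have := ha.1.2
      unfold Nb at this
      simpa using this
  -- the partition
  choose g hg using hdom
  set F : V → Fin r := fun v =>
    if v ∈ U then (if h : ∃ i, v ∈ V0 i then h.choose else f v)
    else if ∃ z ∈ V0 (f v), (mono G c (f v)).Adj v z then f v else g v with hF
  have hF0 : ∀ i, ∀ v ∈ V0 i, F v = i := by
    intro i v hv
    have h1 : v ∈ U := (hmU v).2 ⟨i, hv⟩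
    have h2 : ∃ i, v ∈ V0 i := ⟨i, hv⟩
    simp only [hF]
    rw [if_pos h1, dif_pos h2]
    by_contra hne
    exact (disjoint_left.1 (hdisj _ _ hne)) h2.choose_spec hv
  have hF1 : ∀ v, v ∉ U → (∃ z ∈ V0 (f v), (mono G c (f v)).Adj v z) → F v = f v := by
    intro v hv h
    simp only [hF]
    rw [if_neg hv, if_pos h]
  have hF2 : ∀ v, v ∉ U → (¬ ∃ z ∈ V0 (f v), (mono G c (f v)).Adj v z) → F v = g v := by
    intro v hv h
    simp only [hF]
    rw [if_neg hv, if_neg h]
  refine ⟨F, fun i => ?_⟩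
  -- edges of `Sm`
  have hstr : ∀ z z', (hz : z ∈ V0 i) → (hz' : F z' = i) → (Sm G c b t i).Adj z z' →
      ((mono G c i).induce {v | F v = i}).Reachable ⟨z, hF0 i z hz⟩ ⟨z', hz'⟩ := by
    intro z z' hz hz' h
    have hsm : (Str G c b t i).Adj z z' ∨ (mono G c i).Adj z z' := by
      unfold Sm at h
      exact SimpleGraph.sup_adj _ _ _ _ |>.1 h
    rcases hsm with h | h
    · obtain ⟨a, ha1, ha2, haU, hfa⟩ := hf' i z z' h
      have hFa : F a = i := by
        rw [hF1 a haU ⟨z, by rw [hfa]; exact hz, by rw [hfa]; exact ha1.symm⟩, hfa]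
      have h1 : ((mono G c i).induce {v | F v = i}).Adj ⟨z, hF0 i z hz⟩ ⟨a, hFa⟩ := ha1
      have h2 : ((mono G c i).induce {v | F v = i}).Adj ⟨a, hFa⟩ ⟨z', hz'⟩ := ha2.symm
      exact h1.reachable.trans h2.reachable
    · have h1 : ((mono G c i).induce {v | F v = i}).Adj ⟨z, hF0 i z hz⟩ ⟨z', hz'⟩ := h
      exact h1.reachable
  -- inside `V0 i`
  have hin : ∀ z z', (hz : z ∈ V0 i) → (hz' : z' ∈ V0 i) →
      ((mono G c i).induce {v | F v = i}).Reachable ⟨z, hF0 i z hz⟩ ⟨z', hF0 i z' hz'⟩ := by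
    intro z z' hz hz'
    obtain ⟨w⟩ := hconn i ⟨z, hz⟩ ⟨z', hz'⟩
    have key : ∀ (x y : ((V0 i : Finset V) : Set V)),
        ((Sm G c b t i).induce ((V0 i : Finset V) : Set V)).Walk x y →
        ((mono G c i).induce {v | F v = i}).Reachable ⟨x.1, hF0 i x.1 x.2⟩
          ⟨y.1, hF0 i y.1 y.2⟩ := by
      intro x y w
      induction w with
      | nil => exact SimpleGraph.Reachable.refl _
      | @cons x y z h p ih =>
        exact (hstr x.1 y.1 x.2 (hF0 i y.1 y.2) h).trans ih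
    exact key _ _ w
  -- every vertex is joined to `V0 i`
  have hto : ∀ v, (hv : F v = i) → ∃ z, ∃ hz : z ∈ V0 i,
      ((mono G c i).induce {v | F v = i}).Reachable ⟨z, hF0 i z hz⟩ ⟨v, hv⟩ := by
    intro v hv
    by_cases hvU : v ∈ U
    · obtain ⟨j, hj⟩ := (hmU v).1 hvU
      have hji : j = i := by rw [← hF0 j v hj, hv]
      subst hji
      exact ⟨v, hj, SimpleGraph.Reachable.refl _⟩
    · by_cases h : ∃ z ∈ V0 (f v), (mono G c (f v)).Adj v z
      · have h1 : f v = i := by rw [← hF1 v hvU h, hv]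
        obtain ⟨z, hz, hvz⟩ := h
        rw [h1] at hz hvz
        have h2 : ((mono G c i).induce {v | F v = i}).Adj ⟨z, hF0 i z hz⟩ ⟨v, hv⟩ := hvz.symm
        exact ⟨z, hz, h2.reachable⟩
      · have h1 : g v = i := by rw [← hF2 v hvU h, hv]
        have h2 := hg v
        rw [h1] at h2
        rcases h2 with h2 | ⟨u, hu, hvu⟩
        · exact absurd ((hmU v).2 ⟨i, h2⟩) hvU
        · exact ⟨u, hu, hstr u v hu hv hvu.symm⟩
  rintro ⟨x, hx⟩ ⟨y, hy⟩
  obtain ⟨z, hz, h1⟩ := hto x hx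
  obtain ⟨z', hz', h2⟩ := hto y hy
  exact h1.symm.trans ((hin z z' hz hz').trans h2)

end Pool.Agent.MP5f1228.Asy
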