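import Mathlib
import Pool.Agent.Lib.MP_5f1228_co.Asy.Defs

set_option autoImplicit false

open scoped Classical
open Finset

namespace Pool.Agent.MP5f1228.Asy

/-- module GRAM (file Asy/Gram.lean) -/
theorem gram_bound {F : Type} [Field F] {r : ℕ} {P ρ ι : Type} [Fintype ι]
    (x : Fin r → P → F) (p : ρ → P) (q : ι → P)
    (h : ∀ v : ι → F, (∀ a, ∑ b, (∏ i, (x i (p a) - x i (q b))) * v b = 0) → v = 0) :
    Fintype.card ι ≤ 2 ^ r := by
  have h0 : ∀ X Y : Fin r → F, ∏ i, (X i - Y i) =
      ∑ t : Finset (Fin r), ((-1) ^ t.card * ∏ i ∈ univ \ t, X i) * ∏ i ∈ t, Y i := by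
    intro X Y
    rw [Finset.prod_sub, powerset_univ]
  let Φ : (ι → F) →ₗ[F] (Finset (Fin r) → F) :=
    { toFun := fun v t => ∑ b, (∏ i ∈ t, x i (q b)) * v b
      map_add' := by
        intro v w
        funext t
        simp only [Pi.add_apply, mul_add, sum_add_distrib]
      map_smul' := by
        intro c v
        funext t
        simp only [Pi.smul_apply, smul_eq_mul, RingHom.id_apply, mul_sum]
        exact sum_congr rfl fun b _ => by ring }
  have hinj : Function.Injective Φ := by
    rw [← LinearMap.ker_eq_bot, LinearMap.ker_eq_bot']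
    intro v hv
    refine h v fun a => ?_
    have h1 : ∀ t : Finset (Fin r), ∑ b, (∏ i ∈ t, x i (q b)) * v b = 0 := fun t => congrFun hv t
    simp only [h0, sum_mul]
    rw [sum_comm]
    refine sum_eq_zero fun t _ => ?_
    have h2 : ∑ b, ((-1) ^ t.card * ∏ i ∈ univ \ t, x i (p a)) * (∏ i ∈ t, x i (q b)) * v b
        = ((-1) ^ t.card * ∏ i ∈ univ \ t, x i (p a)) * ∑ b, (∏ i ∈ t, x i (q b)) * v b := by
      rw [mul_sum]
      exact sum_congr rfl fun b _ => by ring
    rw [h2, h1 t, mul_zero]
  have h3 := LinearMap.finrank_le_finrank_of_injective hinj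
  simpa [Module.finrank_fintype_fun_eq_card] using h3

end Pool.Agent.MP5f1228.Asy
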