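import Mathlib
import Pool.Agent.Lib.MP_5f1228_co.Asy.Defs

/-!
# MP_5f1228_co, module SHORT: chains avoid inactive fat points
-/

set_option autoImplicit false

open scoped Classical
open Finset

namespace Pool.Agent.MP5f1228.Asy

open Pool.Agent.MP5f1228B (Con)

theorem short_edge_symm {r : ℕ} {X Z L : Type} (S : Sys r X Z L) (i : Fin r)
    (p q : X ⊕ Z) (h : S.Edge i p q) : S.Edge i q p := by
  rcases p with x | z <;> rcases q with x' | z'
  · exact Eq.symm h
  · exact h
  · exact h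
  · exact S.Γ_symm i z z' h

/-- the invariant along a chain -/
def ShortInv {r : ℕ} {X Z L : Type} (S : Sys r X Z L) (i : Fin r) (y : X) (W : Finset Z) :
    X ⊕ Z → Prop
  | .inl x => x = y ∨ (S.act i x ∧ S.Rch i y W (Sum.inl x)) ∨
      (¬ S.act i x ∧ ∃ z ∈ W, S.A i x z ∧ S.Rch i y W (Sum.inr z))
  | .inr z => z ∈ W → S.Rch i y W (Sum.inr z)

/-- module SHORT (file Asy/Short.lean) -/
theorem rch_of_eqvGen {r : ℕ} {X Z L : Type} (S : Sys r X Z L) (i : Fin r) (y : X)
    (W : Finset Z) (z : Z) (hz : z ∈ W)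
    (h : Relation.EqvGen (fun p q : X ⊕ Z => S.Edge i p q ∧
      (∀ z', p = Sum.inr z' → z' ∈ W) ∧ ∀ z', q = Sum.inr z' → z' ∈ W) (Sum.inl y) (Sum.inr z)) :
    S.Rch i y W (Sum.inr z) := by
  have key : ∀ p q : X ⊕ Z, (S.Edge i p q ∧
      (∀ z', p = Sum.inr z' → z' ∈ W) ∧ ∀ z', q = Sum.inr z' → z' ∈ W) →
      ShortInv S i y W p → ShortInv S i y W q := by
    rintro p q ⟨he, hp, hq⟩ hinv
    rcases p with x | z1 <;> rcases q with x' | z2
    · -- inl x to inl x'
      have he' : S.κ i x = S.κ i x' := he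
      rcases hinv with rfl | ⟨h1, h2⟩ | ⟨h1, z0, h2, h3, h4⟩
      · by_cases hx : S.act i x
        · exact Or.inr (Or.inl ⟨S.act_congr i x x' hx he', Con.single he
            (S.act_congr i x x' hx he')⟩)
        · exact Or.inl (S.own i x x' hx he').symm
      · exact Or.inr (Or.inl ⟨S.act_congr i x x' h1 he', Con.tail h2 he
          (S.act_congr i x x' h1 he')⟩)
      · have := S.own i x x' h1 he'
        subst this
        exact Or.inr (Or.inr ⟨h1, z0, h2, h3, h4⟩)
    · -- inl x to inr z2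
      have hz2 : z2 ∈ W := hq z2 rfl
      intro _
      rcases hinv with rfl | ⟨h1, h2⟩ | ⟨h1, z0, h2, h3, h4⟩
      · exact Con.single he hz2
      · exact Con.tail h2 he hz2
      · rcases S.clique i x z0 z2 h1 h3 he with h5 | h5
        · exact h5 ▸ h4
        · exact Con.tail h4 h5 hz2
    · -- inr z1 to inl x'
      have hz1 : z1 ∈ W := hp z1 rfl
      have h1 : S.Rch i y W (Sum.inr z1) := hinv hz1
      by_cases hx : S.act i x'
      · exact Or.inr (Or.inl ⟨hx, Con.tail h1 he hx⟩)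
      · exact Or.inr (Or.inr ⟨hx, z1, hz1, he, h1⟩)
    · -- inr z1 to inr z2
      have hz1 : z1 ∈ W := hp z1 rfl
      have hz2 : z2 ∈ W := hq z2 rfl
      exact fun _ => Con.tail (hinv hz1) he hz2
  have hsymm : ∀ p q : X ⊕ Z, (S.Edge i p q ∧
      (∀ z', p = Sum.inr z' → z' ∈ W) ∧ ∀ z', q = Sum.inr z' → z' ∈ W) →
      (S.Edge i q p ∧
      (∀ z', q = Sum.inr z' → z' ∈ W) ∧ ∀ z', p = Sum.inr z' → z' ∈ W) :=
    fun p q h => ⟨short_edge_symm S i p q h.1, h.2.2, h.2.1⟩
  have main : ∀ p q : X ⊕ Z, Relation.EqvGen (fun p q : X ⊕ Z => S.Edge i p q ∧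
      (∀ z', p = Sum.inr z' → z' ∈ W) ∧ ∀ z', q = Sum.inr z' → z' ∈ W) p q →
      (ShortInv S i y W p ↔ ShortInv S i y W q) := by
    intro p q hpq
    induction hpq with
    | rel p q hr => exact ⟨key p q hr, key q p (hsymm p q hr)⟩
    | refl p => exact Iff.rfl
    | symm p q _ ih => exact ih.symm
    | trans p q s _ _ ih1 ih2 => exact ih1.trans ih2
  exact ((main _ _ h).1 (Or.inl rfl)) hz

end Pool.Agent.MP5f1228.Asy
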