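import Mathlib
import Pool.Agent.Lib.MP_5f1228_co.Asy.Defs
import Pool.Agent.Lib.MP_5f1228_co.Asy.Dyn
import Pool.Agent.Lib.MP_5f1228_co.Asy.Gram
import Pool.Agent.Lib.MP_5f1228_co.Asy.Short

/-!
# MP_5f1228_co: module MI (the main inequality for systems)
-/

set_option autoImplicit false

open scoped Classical
open Finset

namespace Pool.Agent.MP5f1228.Asy

open Pool.Agent.MP5f1228B (Con)

theorem MI_mono {α : Type} {q s : α → α → Prop} (h : ∀ a b, q a b → s a b) {a b : α}
    (hab : Relation.EqvGen q a b) : Relation.EqvGen s a b := by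
  induction hab with
  | rel a b h1 => exact Relation.EqvGen.rel _ _ (h a b h1)
  | refl a => exact Relation.EqvGen.refl _
  | symm a b _ ih => exact Relation.EqvGen.symm _ _ ih
  | trans a b c _ _ ih1 ih2 => exact Relation.EqvGen.trans _ _ _ ih1 ih2

section MIaux

variable {r : ℕ} {X Z L : Type} (S : Sys r X Z L) {m : ℕ} (z : Fin m → Z) (P : Fin m → Finset Z)

/-- the points allowed at time `s` -/
def MI_al (s : ℕ) (p : X ⊕ Z) : Prop :=
  ∀ z', p = Sum.inr z' → ∃ j : Fin m, (j : ℕ) < s ∧ z' ∈ insert (z j) (P j)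

/-- the edges allowed at time `s` -/
def MI_rel (i : Fin r) (s : ℕ) (p q : X ⊕ Z) : Prop :=
  S.Edge i p q ∧ MI_al z P s p ∧ MI_al z P s q

theorem MI_al_mono {s : ℕ} {p : X ⊕ Z} (h : MI_al z P s p) : MI_al z P (s + 1) p := by
  intro z' hz'
  obtain ⟨j, hj, h1⟩ := h z' hz'
  exact ⟨j, by omega, h1⟩

theorem MI_al_inl (s : ℕ) (a : X) : MI_al z P s (Sum.inl a : X ⊕ Z) := by
  intro z' h
  exact absurd h (by simp)

theorem MI_zero {i : Fin r} {p q : X ⊕ Z} (h : Relation.EqvGen (MI_rel S z P i 0) p q) :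
    ∀ a a', p = Sum.inl a → q = Sum.inl a' → S.κ i a = S.κ i a' := by
  -- every class of the relation consists of one thin point or of fat points with one label
  have key : p = q ∨ ∃ b b', p = Sum.inl b ∧ q = Sum.inl b' ∧ S.κ i b = S.κ i b' := by
    induction h with
    | rel p q h =>
      right
      obtain ⟨h1, h2, h3⟩ := h
      rcases p with b | c
      · rcases q with b' | c'
        · exact ⟨b, b', rfl, rfl, h1⟩
        · obtain ⟨j, hj, _⟩ := h3 c' rfl
          exact absurd hj (Nat.not_lt_zero _)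
      · obtain ⟨j, hj, _⟩ := h2 c rfl
        exact absurd hj (Nat.not_lt_zero _)
    | refl p => exact Or.inl rfl
    | symm p q _ ih =>
      rcases ih with ih | ⟨b, b', h1, h2, h3⟩
      · exact Or.inl ih.symm
      · exact Or.inr ⟨b', b, h2, h1, h3.symm⟩
    | trans p q s _ _ ih1 ih2 =>
      rcases ih1 with ih1 | ⟨b, b', h1, h2, h3⟩
      · rw [ih1]
        exact ih2
      · rcases ih2 with ih2 | ⟨d, d', h4, h5, h6⟩
        · rw [← ih2]
          exact Or.inr ⟨b, b', h1, h2, h3⟩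
        · rw [h2] at h4
          have h7 := Sum.inl.inj h4
          exact Or.inr ⟨b, d', h1, h5, by rw [h3, h7, h6]⟩
  intro a a' ha ha'
  rcases key with key | ⟨b, b', h1, h2, h3⟩
  · rw [ha, ha'] at key
    rw [Sum.inl.inj key]
  · rw [ha] at h1
    rw [ha'] at h2
    rw [Sum.inl.inj h1, Sum.inl.inj h2]
    exact h3

end MIaux

/-- module MI (file Asy/MI.lean) -/
theorem mi {r : ℕ} {X Z L : Type} [Finite X] [Finite Z] (S : Sys r X Z L) (T : Finset X)
    (w : X → X) (hT1 : ∀ a ∈ T, ∀ i, S.κ i a ≠ S.κ i (w a))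
    (hT2 : ∀ a ∈ T, ∀ a' ∈ T, a ≠ a' → ∃ i, S.κ i a' = S.κ i (w a))
    (m : ℕ) (y : Fin m → X) (z : Fin m → Z) (P : Fin m → Finset Z)
    (hu : ∀ l, S.Univ (y l))
    (hcov : ∀ j l, j < l → S.Cov (y l) (z j))
    (hP : ∀ j l, j < l → insert (z j) (P j) ⊆ P l)
    (hsep : ∀ l i, ¬ S.Rch i (y l) (insert (z l) (P l)) (Sum.inr (z l))) :
    T.card + 2 * m ≤ 2 ^ r := by
  obtain ⟨x, hx, hdet⟩ := dyn (F := ℚ) m
    (fun i s => Relation.EqvGen.setoid (MI_rel S z P i s))
    (fun i s p q h => MI_mono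
      (fun a b hab => ⟨hab.1, MI_al_mono z P hab.2.1, MI_al_mono z P hab.2.2⟩) h)
    (fun l => (Sum.inl (y l) : X ⊕ Z)) (fun l => (Sum.inr (z l) : X ⊕ Z))
    (fun j l hjl => by
      obtain ⟨i, hi⟩ := hcov j l hjl
      refine ⟨i, Relation.EqvGen.rel _ _ ⟨hi, MI_al_inl z P _ _, ?_⟩⟩
      intro z' hz'
      refine ⟨j, Nat.lt_succ_self _, ?_⟩
      rw [← Sum.inr.inj hz']
      exact mem_insert_self _ _)
    (fun l i h => by
      refine hsep l i (rch_of_eqvGen S i (y l) _ (z l) (mem_insert_self _ _) ?_)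
      have hal : ∀ p : X ⊕ Z, MI_al z P ((l : ℕ) + 1) p →
          ∀ z', p = Sum.inr z' → z' ∈ insert (z l) (P l) := by
        intro p hp z' hz'
        obtain ⟨j, hj, h1⟩ := hp z' hz'
        by_cases hjl : j = l
        · rw [← hjl]
          exact h1
        · have hlt : j < l := by
            have h2 : (j : ℕ) ≠ l := fun h3 => hjl (Fin.ext h3)
            exact Fin.lt_def.2 (by omega)
          exact mem_insert_of_mem (hP j l hlt h1)
      exact MI_mono (fun a b hab => ⟨hab.1, hal a hab.2.1, hal b hab.2.2⟩) h)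
  have hx0 : ∀ (i : Fin r) (a a' : X), x i (Sum.inl a) = x i (Sum.inl a') ↔ S.κ i a = S.κ i a' := by
    intro i a a'
    rw [hx]
    constructor
    · intro h
      exact MI_zero S z P h a a' rfl rfl
    · intro h
      exact Relation.EqvGen.rel _ _ ⟨h, MI_al_inl z P _ _, MI_al_inl z P _ _⟩
  -- products that vanish
  have hYl : ∀ (l : Fin m) (a : X), ∏ i, (x i (Sum.inl (y l)) - x i (Sum.inl a)) = 0 := by
    intro l a
    obtain ⟨i, hi⟩ := hu l a
    exact prod_eq_zero (mem_univ i) (sub_eq_zero.2 ((hx0 i _ _).2 hi.symm))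
  have hYr : ∀ (l : Fin m) (a : X), ∏ i, (x i (Sum.inl a) - x i (Sum.inl (y l))) = 0 := by
    intro l a
    obtain ⟨i, hi⟩ := hu l a
    exact prod_eq_zero (mem_univ i) (sub_eq_zero.2 ((hx0 i _ _).2 hi))
  obtain ⟨D, hD⟩ : ∃ D : Matrix (Fin m) (Fin m) ℚ, D = Matrix.of fun l j : Fin m =>
    ∏ i, (x i (Sum.inl (y l)) - x i (Sum.inr (z j))) := ⟨_, rfl⟩
  rw [← hD] at hdet
  have hDlj : ∀ l j, D l j = ∏ i, (x i (Sum.inl (y l)) - x i (Sum.inr (z j))) := by
    intro l j
    rw [hD]
    rfl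
  have key := gram_bound (F := ℚ) x
    (fun a : {a // a ∈ T} ⊕ (Fin m ⊕ Fin m) => match a with
      | .inl a => (Sum.inl a.1 : X ⊕ Z)
      | .inr (.inl l) => Sum.inl (y l)
      | .inr (.inr l) => Sum.inr (z l))
    (fun a : {a // a ∈ T} ⊕ (Fin m ⊕ Fin m) => match a with
      | .inl a => (Sum.inl (w a.1) : X ⊕ Z)
      | .inr (.inl l) => Sum.inl (y l)
      | .inr (.inr l) => Sum.inr (z l)) ?_
  · rw [Fintype.card_sum, Fintype.card_sum, Fintype.card_fin, Fintype.card_coe] at key
    omega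
  · intro v hv
    simp only [Fintype.sum_sum_type] at hv
    -- rows Y
    have hB : (fun j => v (Sum.inr (Sum.inr j))) = 0 := by
      refine Matrix.eq_zero_of_mulVec_eq_zero hdet ?_
      ext l
      have h1 := hv (Sum.inr (Sum.inl l))
      simp only [hYl, zero_mul, sum_const_zero, zero_add] at h1
      simp only [Matrix.mulVec, dotProduct, hDlj, Pi.zero_apply]
      exact h1
    have hB' : ∀ j, v (Sum.inr (Sum.inr j)) = 0 := fun j => congrFun hB j
    -- rows T
    have hT : ∀ a : {a // a ∈ T}, v (Sum.inl a) = 0 := by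
      intro a
      have h1 := hv (Sum.inl a)
      simp only [hYr, zero_mul, sum_const_zero, zero_add, add_zero, hB', mul_zero] at h1
      rw [sum_eq_single a] at h1
      · rcases mul_eq_zero.1 h1 with h2 | h2
        · exfalso
          obtain ⟨i, _, h3⟩ := prod_eq_zero_iff.1 h2
          exact hT1 a.1 a.2 i ((hx0 i _ _).1 (sub_eq_zero.1 h3))
        · exact h2
      · intro a' _ hne
        obtain ⟨i, hi⟩ := hT2 a'.1 a'.2 a.1 a.2 (fun h => hne (Subtype.ext h))
        rw [prod_eq_zero (mem_univ i) (sub_eq_zero.2 ((hx0 i _ _).2 hi)), zero_mul]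
      · intro h
        exact absurd (mem_univ a) h
    -- rows B
    have hY : (fun l => v (Sum.inr (Sum.inl l))) = 0 := by
      refine Matrix.eq_zero_of_vecMul_eq_zero hdet ?_
      ext l
      have h1 := hv (Sum.inr (Sum.inr l))
      simp only [hT, hB', mul_zero, sum_const_zero, zero_add, add_zero] at h1
      simp only [Matrix.vecMul, dotProduct, hDlj, Pi.zero_apply]
      have h2 : ∀ l' : Fin m, ∏ i, (x i (Sum.inr (z l)) - x i (Sum.inl (y l'))) =
          (-1) ^ r * ∏ i, (x i (Sum.inl (y l')) - x i (Sum.inr (z l))) := by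
        intro l'
        have h3 : ((-1 : ℚ)) ^ r = ∏ _i : Fin r, (-1 : ℚ) := by simp
        rw [h3, ← prod_mul_distrib]
        refine prod_congr rfl fun i _ => ?_
        ring
      simp only [h2, mul_assoc, ← mul_sum] at h1
      rcases mul_eq_zero.1 h1 with h3 | h3
      · exact absurd h3 (pow_ne_zero _ (by norm_num))
      · rw [← h3]
        exact sum_congr rfl fun l' _ => mul_comm _ _
    have hY' : ∀ l, v (Sum.inr (Sum.inl l)) = 0 := fun l => congrFun hY l
    funext a
    rcases a with a | l | l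
    · exact hT a
    · exact hY' l
    · exact hB' l

end Pool.Agent.MP5f1228.Asy
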