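import Mathlib
import Pool.Agent.Lib.MP_5f1228_co.Asy.Defs
import Pool.Agent.Lib.MP_5f1228_co.Asy.MI
import Pool.Agent.Lib.MP_5f1228_co.Asy.Att
import Pool.Agent.Lib.MP_5f1228_co.Asy.CertRO

set_option autoImplicit false

open scoped Classical
open Finset

namespace Pool.Agent.MP5f1228.Asy

/-- minimal dominating family of non-universal points -/
theorem SysMain_min {r : ℕ} {X Z L : Type} [Fintype X] (S : Sys r X Z L) :
    ∃ (T : Finset X) (w : X → X), (∀ a ∈ T, ∀ i, S.κ i a ≠ S.κ i (w a)) ∧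
      (∀ a ∈ T, ∀ a' ∈ T, a ≠ a' → ∃ i, S.κ i a' = S.κ i (w a)) ∧
      ∀ b, ¬ S.Univ b → ∃ a ∈ T, ∀ i, S.κ i a ≠ S.κ i b := by
  set Dom : Finset X → Prop := fun T => ∀ b, ¬ S.Univ b → ∃ a ∈ T, ∀ i, S.κ i a ≠ S.κ i b
    with hDom
  have h0 : Dom univ := by
    intro b hb
    unfold Sys.Univ at hb
    push Not at hb
    obtain ⟨x, hx⟩ := hb
    exact ⟨x, mem_univ _, hx⟩
  obtain ⟨T, hT, hmin⟩ := Finset.exists_min_image (univ.filter Dom) Finset.card
    ⟨univ, by simp [h0]⟩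
  rw [mem_filter] at hT
  have hex : ∀ a ∈ T, ∃ b, (∀ i, S.κ i a ≠ S.κ i b) ∧
      ∀ a' ∈ T, a ≠ a' → ∃ i, S.κ i a' = S.κ i b := by
    intro a ha
    have h1 : ¬ Dom (T.erase a) := by
      intro h
      have h2 := hmin (T.erase a) (by rw [mem_filter]; exact ⟨mem_univ _, h⟩)
      have h3 := card_erase_lt_of_mem ha
      omega
    simp only [hDom] at h1
    push Not at h1
    obtain ⟨b, hb, h2⟩ := h1
    obtain ⟨a'', ha'', h3⟩ := hT.2 b hb
    have h4 : a'' = a := by
      by_contra hne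
      obtain ⟨i, hi⟩ := h2 a'' (mem_erase.mpr ⟨hne, ha''⟩)
      exact h3 i hi
    subst h4
    exact ⟨b, h3, fun a' ha' hne => h2 a' (mem_erase.mpr ⟨fun e => hne e.symm, ha'⟩)⟩
  choose! w hw using hex
  exact ⟨T, w, fun a ha => (hw a ha).1, fun a ha => (hw a ha).2, hT.2⟩

/-- module SYSMAIN (file Asy/SysMain.lean) -/
theorem sys_main {r : ℕ} {X Z L : Type} [Fintype X] [Fintype Z] (S : Sys r X Z L) (D : ℕ)
    (h1 : ∀ x, (univ.filter (fun x' => ∀ i, S.κ i x ≠ S.κ i x')).card ≤ D)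
    (h2 : ∀ z, (univ.filter (fun x => ¬ S.Cov x z)).card ≤ D)
    (h3 : 2 ^ r * D < Fintype.card X) :
    ∃ y, S.Good y univ := by
  by_contra hno
  push Not at hno
  obtain ⟨T, w, hT1, hT2, hT3⟩ := SysMain_min S
  -- separating sequences
  set Q : ℕ → Prop := fun k => ∃ (y : Fin k → {y // S.Univ y}) (z : Fin k → Z)
      (P : Fin k → Finset Z), (∀ j l, j < l → S.Cov (y l).1 (z j)) ∧
      (∀ j l, j < l → insert (z j) (P j) ⊆ P l) ∧
      (∀ l, ¬ RO.Att (S.Good (y l).1) (z l) (P l)) with hQ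
  have hQT : ∀ (T : Finset X) (w : X → X), (∀ a ∈ T, ∀ i, S.κ i a ≠ S.κ i (w a)) →
      (∀ a ∈ T, ∀ a' ∈ T, a ≠ a' → ∃ i, S.κ i a' = S.κ i (w a)) → ∀ k, Q k →
      T.card + 2 * k ≤ 2 ^ r := by
    intro T w hT1 hT2 k hk
    obtain ⟨y, z, P, ha, hb, hc⟩ := hk
    refine mi S T w hT1 hT2 k (fun l => (y l).1) z P (fun l => (y l).2) ha hb ?_
    intro l i h
    exact hc l (Sys.att_of_rch S _ i _ _ h)
  have hQ0 : Q 0 := ⟨fun l => l.elim0, fun l => l.elim0, fun l => l.elim0,
    fun j => j.elim0, fun j => j.elim0, fun j => j.elim0⟩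
  set m := Nat.findGreatest Q (2 ^ r) with hm
  have hQm : Q m := Nat.findGreatest_spec (Nat.zero_le _) hQ0
  have hmax : ∀ k, Q k → k ≤ m := by
    intro k hk
    refine Nat.le_findGreatest ?_ hk
    have := hQT T w hT1 hT2 k hk
    omega
  have hTm := hQT T w hT1 hT2 m hQm
  obtain ⟨W, hW0, hW1, hW2⟩ := cert_ro (C := {y // S.Univ y}) (fun y z => S.Cov y.1 z)
    (fun y => RO.Att (S.Good y.1)) (fun y z S' h => Sys.att_of_cov S _ _ _ h) m
    (fun k y z P ha hb hc => hmax k ⟨y, z, P, ha, hb, hc⟩)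
  -- universal points
  have hU : ((univ.filter (fun x => S.Univ x)).card : ℝ) ≤ 2 * m * D := by
    have e1 : ∀ y ∈ univ.filter (fun x => S.Univ x),
        (1 : ℝ) ≤ ∑ z ∈ univ.filter (fun z => ¬ S.Cov y z), W z := by
      intro y hy
      refine hW2 ⟨y, (mem_filter.mp hy).2⟩ ?_
      exact RO.ee_le_half (Sys.good_empty S y) (fun A B hA hB hd => Sys.good_union S y A B hA hB hd)
        (hno y)
    have e2 : ((univ.filter (fun x => S.Univ x)).card : ℝ) ≤
        ∑ y ∈ univ.filter (fun x => S.Univ x), ∑ z ∈ univ.filter (fun z => ¬ S.Cov y z), W z := by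
      have := sum_le_sum e1
      simpa using this
    refine e2.trans ?_
    have e3 : ∑ y ∈ univ.filter (fun x => S.Univ x), ∑ z ∈ univ.filter (fun z => ¬ S.Cov y z), W z
        = ∑ z, ∑ y ∈ univ.filter (fun x => S.Univ x), if ¬ S.Cov y z then W z else 0 := by
      rw [sum_comm]
      refine sum_congr rfl fun y _ => ?_
      rw [sum_filter]
    rw [e3]
    have e4 : ∀ z ∈ (univ : Finset Z), (∑ y ∈ univ.filter (fun x => S.Univ x),
        if ¬ S.Cov y z then W z else 0) ≤ W z * D := by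
      intro z _
      rw [← sum_filter, sum_const, nsmul_eq_mul, mul_comm]
      refine mul_le_mul_of_nonneg_left ?_ (hW0 z)
      have e5 : ((univ.filter (fun x => S.Univ x)).filter (fun x => ¬ S.Cov x z)).card ≤ D := by
        refine (card_le_card ?_).trans (h2 z)
        intro x hx
        rw [mem_filter] at hx ⊢
        exact ⟨mem_univ _, hx.2⟩
      exact_mod_cast e5
    refine (sum_le_sum e4).trans ?_
    rw [← sum_mul]
    exact mul_le_mul_of_nonneg_right hW1 (Nat.cast_nonneg D)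
  have hU' : (univ.filter (fun x => S.Univ x)).card ≤ 2 * m * D := by exact_mod_cast hU
  -- non-universal points
  have hN : (univ.filter (fun x => ¬ S.Univ x)).card ≤ T.card * D := by
    have e1 : univ.filter (fun x => ¬ S.Univ x) ⊆
        T.biUnion (fun a => univ.filter (fun x' => ∀ i, S.κ i a ≠ S.κ i x')) := by
      intro b hb
      obtain ⟨a, ha, hab⟩ := hT3 b (mem_filter.mp hb).2
      rw [mem_biUnion]
      exact ⟨a, ha, mem_filter.mpr ⟨mem_univ _, hab⟩⟩
    refine (card_le_card e1).trans (card_biUnion_le.trans ?_)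
    rw [← smul_eq_mul, ← sum_const]
    exact sum_le_sum fun a _ => h1 a
  have hX : (univ.filter (fun x => S.Univ x)).card + (univ.filter (fun x => ¬ S.Univ x)).card
      = Fintype.card X := by
    rw [← card_univ]
    exact card_filter_add_card_filter_not (fun x => S.Univ x)
  have : (T.card + 2 * m) * D ≤ 2 ^ r * D := Nat.mul_le_mul_right D hTm
  nlinarith

end Pool.Agent.MP5f1228.Asy
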