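import Mathlib
import Pool.Agent.Lib.MP_5f1228_co.Asy.Cls

/-!
# MP_5f1228_co, asymptotic part: almost all vertices are typical (module TYPCOUNT)
-/

set_option autoImplicit false

open scoped Classical
open Finset

namespace Pool.Agent.MP5f1228.Asy

open Pool.Agent.MP5f1228B (Con)

section Graph

variable {V : Type} [Fintype V] [DecidableEq V] {r : ℕ} {G : SimpleGraph V}
  {c : Sym2 V → Fin r} {b t : ℕ} {D0 R : Finset V} {i : Fin r} {u v w : V} {M lam a K : ℕ}

/-- vertices with many neighbours that are inactive in the colour of the edge -/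
theorem TypCount_few (G : SimpleGraph V) (c : Sym2 V → Fin r) (b a : ℕ) :
    (univ.filter (fun v => ¬ (univ.filter (fun y => ∃ i, v ∈ ActG G c b i ∧ y ∈ Nb G c i v ∧
      y ∉ ActG G c b i)).card ≤ a)).card ≤ (r * b * Fintype.card V) / (a + 1) := by
  set f : V → V → Prop := fun v y => ∃ i, v ∈ ActG G c b i ∧ y ∈ Nb G c i v ∧
    y ∉ ActG G c b i with hf
  rw [Nat.le_div_iff_mul_le (Nat.succ_pos a)]
  have h1 : (univ.filter (fun v => ¬ (univ.filter (fun y => f v y)).card ≤ a)).card * (a + 1) ≤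
      ∑ v : V, (univ.filter (fun y => f v y)).card := by
    calc (univ.filter (fun v => ¬ (univ.filter (fun y => f v y)).card ≤ a)).card * (a + 1)
        = ∑ v ∈ univ.filter (fun v => ¬ (univ.filter (fun y => f v y)).card ≤ a), (a + 1) := by
          rw [sum_const, smul_eq_mul]
      _ ≤ ∑ v ∈ univ.filter (fun v => ¬ (univ.filter (fun y => f v y)).card ≤ a),
          (univ.filter (fun y => f v y)).card := by
          apply sum_le_sum
          intro v hv
          have := (mem_filter.mp hv).2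
          omega
      _ ≤ ∑ v : V, (univ.filter (fun y => f v y)).card :=
          sum_le_sum_of_subset (filter_subset _ _)
  have h2 : ∑ v : V, (univ.filter (fun y => f v y)).card =
      ∑ y : V, (univ.filter (fun v => f v y)).card := by
    simp only [card_filter]
    exact sum_comm
  have h3 : ∀ y : V, (univ.filter (fun v => f v y)).card ≤ r * b := by
    intro y
    have hsub : univ.filter (fun v => f v y) ⊆
        (univ.filter (fun i : Fin r => y ∉ ActG G c b i)).biUnion (fun i => Nb G c i y) := by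
      intro v hv
      obtain ⟨i, _, h5, h6⟩ := (mem_filter.mp hv).2
      rw [mem_biUnion]
      refine ⟨i, mem_filter.mpr ⟨mem_univ _, h6⟩, ?_⟩
      rw [Cls_mem_Nb] at h5 ⊢
      exact h5.symm
    calc (univ.filter (fun v => f v y)).card
        ≤ ((univ.filter (fun i : Fin r => y ∉ ActG G c b i)).biUnion
            (fun i => Nb G c i y)).card := card_le_card hsub
      _ ≤ ∑ i ∈ univ.filter (fun i : Fin r => y ∉ ActG G c b i), (Nb G c i y).card :=
          card_biUnion_le
      _ ≤ ∑ i ∈ univ.filter (fun i : Fin r => y ∉ ActG G c b i), b := by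
          apply sum_le_sum
          intro i hi
          have h7 := (mem_filter.mp hi).2
          unfold ActG at h7
          rw [mem_filter, not_and, not_le] at h7
          exact (h7 (mem_univ _)).le
      _ ≤ r * b := by
          rw [sum_const, smul_eq_mul]
          apply Nat.mul_le_mul_right
          calc (univ.filter (fun i : Fin r => y ∉ ActG G c b i)).card
              ≤ (univ : Finset (Fin r)).card := card_filter_le _ _
            _ = r := by simp
  calc (univ.filter (fun v => ¬ (univ.filter (fun y => f v y)).card ≤ a)).card * (a + 1)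
      ≤ ∑ v : V, (univ.filter (fun y => f v y)).card := h1
    _ = ∑ y : V, (univ.filter (fun v => f v y)).card := h2
    _ ≤ ∑ y : V, r * b := sum_le_sum (fun y _ => h3 y)
    _ = r * b * Fintype.card V := by
        rw [sum_const, smul_eq_mul, card_univ, mul_comm]

/-- vertices in the small common neighbourhood of two vertices of `E` -/
theorem TypCount_clq (G : SimpleGraph V) (c : Sym2 V → Fin r) (t : ℕ) (E : Finset V) :
    (univ.filter (fun v => ¬ ∀ i : Fin r, ∀ z ∈ E, ∀ z' ∈ E, z ≠ z' → v ∈ Nb G c i z →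
      v ∈ Nb G c i z' → t ≤ (Nb G c i z ∩ Nb G c i z').card)).card ≤ r * E.card ^ 2 * t := by
  have hsub : univ.filter (fun v => ¬ ∀ i : Fin r, ∀ z ∈ E, ∀ z' ∈ E, z ≠ z' → v ∈ Nb G c i z →
      v ∈ Nb G c i z' → t ≤ (Nb G c i z ∩ Nb G c i z').card) ⊆
      ((univ : Finset (Fin r)) ×ˢ (E ×ˢ E)).biUnion (fun p =>
        if (Nb G c p.1 p.2.1 ∩ Nb G c p.1 p.2.2).card < t then
          Nb G c p.1 p.2.1 ∩ Nb G c p.1 p.2.2 else ∅) := by
    intro v hv
    have h1 := (mem_filter.mp hv).2
    push Not at h1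
    obtain ⟨i, z, hz, z', hz', _, h2, h3, h4⟩ := h1
    rw [mem_biUnion]
    refine ⟨(i, (z, z')), mem_product.mpr ⟨mem_univ _, mem_product.mpr ⟨hz, hz'⟩⟩, ?_⟩
    rw [if_pos h4]
    exact mem_inter.mpr ⟨h2, h3⟩
  refine (card_le_card hsub).trans ((card_biUnion_le_card_mul _ _ t ?_).trans (le_of_eq ?_))
  · intro p _
    split_ifs with h
    · exact h.le
    · simp
  · rw [card_product, card_product, card_univ, Fintype.card_fin]
    ring

/-- vertices outside `D0` whose class has few neighbours of some `z` in `D0` -/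
theorem TypCount_many (hM : IndB G c b t M) (D0 : Finset V) (K : ℕ) :
    (univ.filter (fun v => v ∉ D0 ∧ ¬ ∀ i : Fin r, ∀ z ∈ D0, v ∈ ActG G c b i → v ∈ Nb G c i z →
      K ≤ (univ.filter (fun u => u ∈ Nb G c i z ∧ Cl G c b t D0 i v u)).card)).card ≤
      r * D0.card * M * K := by
  set U : Fin r × V → Finset V := fun p => univ.filter (fun v => v ∉ D0 ∧ v ∈ ActG G c b p.1 ∧
    v ∈ Nb G c p.1 p.2 ∧
    (univ.filter (fun u => u ∈ Nb G c p.1 p.2 ∧ Cl G c b t D0 p.1 v u)).card < K) with hU
  have hsub : univ.filter (fun v => v ∉ D0 ∧ ¬ ∀ i : Fin r, ∀ z ∈ D0, v ∈ ActG G c b i →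
      v ∈ Nb G c i z →
      K ≤ (univ.filter (fun u => u ∈ Nb G c i z ∧ Cl G c b t D0 i v u)).card) ⊆
      ((univ : Finset (Fin r)) ×ˢ D0).biUnion U := by
    intro v hv
    obtain ⟨h0, h1⟩ := (mem_filter.mp hv).2
    push Not at h1
    obtain ⟨i, z, hz, h2, h3, h4⟩ := h1
    rw [mem_biUnion]
    refine ⟨(i, z), mem_product.mpr ⟨mem_univ _, hz⟩, ?_⟩
    rw [hU]
    exact mem_filter.mpr ⟨mem_univ _, h0, h2, h3, h4⟩
  have hUc : ∀ p : Fin r × V, (U p).card ≤ M * K := by
    intro p
    obtain ⟨S, hSU, hSM, _, hrep⟩ := exists_class_reps (D0 := D0) hM p.1 (U p) (by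
      intro v hv
      rw [hU] at hv
      obtain ⟨h1, h2, _⟩ := (mem_filter.mp hv).2
      exact ⟨h2, h1⟩)
    have hsub2 : U p ⊆ S.biUnion (fun w =>
        univ.filter (fun u => u ∈ Nb G c p.1 p.2 ∧ Cl G c b t D0 p.1 w u)) := by
      intro v hv
      obtain ⟨w, hw, hcl⟩ := hrep v hv
      rw [mem_biUnion]
      refine ⟨w, hw, mem_filter.mpr ⟨mem_univ _, ?_, hcl⟩⟩
      rw [hU] at hv
      exact (mem_filter.mp hv).2.2.2.1
    refine (card_le_card hsub2).trans ((card_biUnion_le_card_mul _ _ K ?_).trans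
      (Nat.mul_le_mul_right _ hSM))
    intro w hw
    have h1 := hSU hw
    rw [hU] at h1
    exact (mem_filter.mp h1).2.2.2.2.le
  refine (card_le_card hsub).trans ((card_biUnion_le_card_mul _ _ (M * K)
    (fun p _ => hUc p)).trans (le_of_eq ?_))
  rw [card_product, card_univ, Fintype.card_fin]
  ring

/-- module TYPCOUNT (file Asy/TypCount.lean) -/
theorem typ_count (hM : IndB G c b t M) (D0 R : Finset V) (a K : ℕ) :
    (univ.filter (fun v => ¬ Typ G c b t D0 R a K v)).card ≤
      D0.card + (r * b * Fintype.card V) / (a + 1) + r * (D0 ∪ R).card ^ 2 * t +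
        r * D0.card * M * K := by
  have hsub : univ.filter (fun v => ¬ Typ G c b t D0 R a K v) ⊆
      ((D0 ∪ univ.filter (fun v => ¬ (univ.filter (fun y => ∃ i, v ∈ ActG G c b i ∧
        y ∈ Nb G c i v ∧ y ∉ ActG G c b i)).card ≤ a)) ∪
      univ.filter (fun v => ¬ ∀ i : Fin r, ∀ z ∈ D0 ∪ R, ∀ z' ∈ D0 ∪ R, z ≠ z' →
        v ∈ Nb G c i z → v ∈ Nb G c i z' → t ≤ (Nb G c i z ∩ Nb G c i z').card)) ∪
      univ.filter (fun v => v ∉ D0 ∧ ¬ ∀ i : Fin r, ∀ z ∈ D0, v ∈ ActG G c b i →
        v ∈ Nb G c i z →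
        K ≤ (univ.filter (fun u => u ∈ Nb G c i z ∧ Cl G c b t D0 i v u)).card) := by
    intro v hv
    have h := (mem_filter.mp hv).2
    by_contra hcon
    rw [mem_union, mem_union, mem_union, not_or, not_or, not_or] at hcon
    obtain ⟨⟨⟨h1, h2⟩, h3⟩, h4⟩ := hcon
    rw [mem_filter, not_and, not_not] at h2 h3
    rw [mem_filter, not_and, not_and, not_not] at h4
    exact h ⟨h1, h2 (mem_univ _), h3 (mem_univ _), h4 (mem_univ _) h1⟩
  refine (card_le_card hsub).trans ?_
  refine (card_union_le _ _).trans (Nat.add_le_add ?_ (TypCount_many hM D0 K))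
  refine (card_union_le _ _).trans (Nat.add_le_add ?_ (TypCount_clq G c t (D0 ∪ R)))
  exact (card_union_le _ _).trans (Nat.add_le_add_left (TypCount_few G c b a) _)

end Graph

end Pool.Agent.MP5f1228.Asy
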