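import Mathlib
import Pool.Agent.Lib.MP_5f1228_co.Asy.Defs
import Pool.Agent.Lib.MP_5f1228_co.Asy.SysMain
import Pool.Agent.Lib.MP_5f1228_co.Asy.Res2
import Pool.Agent.Lib.MP_5f1228_co.Asy.Cls
import Pool.Agent.Lib.MP_5f1228_co.Asy.Core0
import Pool.Agent.Lib.MP_5f1228_co.Asy.Reps
import Pool.Agent.Lib.MP_5f1228_co.Asy.TypCount
import Pool.Agent.Lib.MP_5f1228_co.Asy.GSys
import Pool.Agent.Lib.MP_5f1228_co.Asy.Lift
import Pool.Agent.Lib.MP_5f1228_co.Asy.Params
import Pool.Agent.Lib.MP_5f1228_co.Tree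

/-!
# MP_5f1228_co: the asymptotically exact threshold for all numbers of colours

For every `r` and every `ε < 2^(-r)` there is `n₀` such that every `r`-coloured graph on `n ≥ n₀`
vertices with minimum degree at least `(1 - ε) n` can be partitioned into at most `r`
monochromatic trees of distinct colours.
-/

set_option autoImplicit false

open scoped Classical
open Finset

namespace Pool.Agent.MP5f1228.Asy

open Pool.Agent.MP5f1228B (Con)

theorem tp_asymptotic (r : ℕ) (hr : 1 ≤ r) (ε : ℝ) (hε : ε < 1 / 2 ^ r) :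
    ∃ n₀ : ℕ, ∀ (V : Type) [Fintype V] [DecidableEq V] (G : SimpleGraph V)
      [DecidableRel G.Adj] (c : Sym2 V → Fin r), n₀ ≤ Fintype.card V →
      (∀ v, (1 - ε) * (Fintype.card V : ℝ) ≤ (G.degree v : ℝ)) →
      ∃ H : Fin r → G.Subgraph, (∀ i, H i = ⊥ ∨ (H i).coe.IsTree) ∧
        (∀ i v w, (H i).Adj v w → c s(v, w) = i) ∧ ∀ v, ∃! i, v ∈ (H i).verts := by
  obtain ⟨M, lam, q, d, K, n₀, hq, hd, hlam, hK, hn⟩ := exists_params r hr ε hε
  refine ⟨n₀, ?_⟩
  intro V _ _ G _ c hcard hdeg
  obtain ⟨b, t, a, m, e, h1, he, h2, h3, h4⟩ := hn (Fintype.card V) hcard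
  have hM : IndB G c b t M := indB_of_num G c h1
  obtain ⟨D0, hD0, hrob⟩ := exists_rob G c b t lam hM
  obtain ⟨R, hR, hRc, hRep⟩ := exists_reps hM D0
  rw [← hd] at hD0
  rw [← hq] at hRc
  -- degrees
  have hnon : ∀ v, (univ.filter (fun w => ¬ G.Adj v w)).card ≤ e := by
    intro v
    apply he
    have h5 : (univ.filter (fun w => ¬ G.Adj v w)).card + G.degree v = Fintype.card V := by
      have h6 := card_filter_add_card_filter_not (s := (univ : Finset V)) (fun w => G.Adj v w)
      rw [card_univ] at h6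
      have h7 : (univ.filter (fun w => G.Adj v w)).card = G.degree v := by
        rw [← SimpleGraph.card_neighborFinset_eq_degree]
        congr 1
        ext w
        simp
      omega
    have h6 := hdeg v
    have h7 : ((univ.filter (fun w => ¬ G.Adj v w)).card : ℝ) + G.degree v
        = Fintype.card V := by exact_mod_cast h5
    linarith
  -- the system
  have hT := typ_count hM D0 R a K
  have hZ : (D0 ∪ R).card ≤ d + q := (card_union_le _ _).trans (Nat.add_le_add hD0 hRc)
  have hX : Fintype.card {v // Typ G c b t D0 R a K v} +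
      (univ.filter (fun v => ¬ Typ G c b t D0 R a K v)).card = Fintype.card V := by
    rw [Fintype.card_subtype, ← card_univ,
      ← card_filter_add_card_filter_not (s := (univ : Finset V)) (Typ G c b t D0 R a K)]
  have hT' : (univ.filter (fun v => ¬ Typ G c b t D0 R a K v)).card ≤
      d + (r * b * Fintype.card V) / (a + 1) + r * (d + q) ^ 2 * t + r * d * M * K := by
    refine hT.trans ?_
    gcongr
  obtain ⟨y, hy⟩ := sys_main (gsys G c b t D0 R hR a K) (e + r * b + a)
    (fun x => gsys_h1 hR hnon x)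
    (fun z => (gsys_h2 hR hnon z).trans (Nat.le_add_right _ _)) (by omega)
  obtain ⟨V0, hc, hdj, hdm, hs⟩ := lift (M := M) (lam := lam) hM hrob hR hRep
    (lt_of_le_of_lt (by gcongr) hlam) (lt_of_le_of_lt (by gcongr) hK) y hy
  have hs' : ∑ i, (V0 i).card ≤ d + q + 2 * M * (r * M) + d * (r * M) := by
    refine hs.trans ?_
    gcongr
  obtain ⟨F, hF⟩ := exists_partition2 G c (m := m) V0 hc hdj hdm (by omega) h4
  exact trees_of_partition G c F hF

end Pool.Agent.MP5f1228.Asy
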